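import Pool.Agent.Lib.MP_51fc07_al.Dual

/-!
Project GV (MP_51fc07_al): from the integer statement about `cst` to the frozen form.
-/

set_option autoImplicit false

namespace Pool.Agent.Lib.MP_51fc07_al.GV

open Pool.Agent.Lib.MP_51fc07_al

/-- the change-of-seed recurrence for the integer data -/
def StInt57 : Prop := ∀ (n : ℕ) (B : Matrix (Fin n) (Fin n) ℤ), TSSS B →
  ∀ (w : List (Fin n)) (k a : Fin n),
    (cst (mu k B) (k :: w)).G k a = -(cst B w).G k a ∧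
    ∀ i, i ≠ k → (cst (mu k B) (k :: w)).G i a
      = (cst B w).G i a + max (B i k) 0 * (cst B w).G k a - B i k * min ((cst B w).G k a) 0

theorem own57 (h : StInt57) (n : ℕ) (B1 : Matrix (Fin n) (Fin n) ℤ) (hB : TSSS B1)
    (k a : Fin n) (w : List (Fin n)) (g1 g2 : Fin n → ℤ)
    (h1 : IsG B1 (clvar B1 w a) g1)
    (h2 : IsG (mu k B1) (clvar (mu k B1) (k :: w) a) g2) :
    g2 k = -g1 k ∧
      ∀ i : Fin n, i ≠ k → g2 i = g1 i + max (B1 i k) 0 * g1 k - B1 i k * min (g1 k) 0 := by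
  have e1 := h1.unique (isGp_clvar hB.diag w a).isG
  have e2 := h2.unique (isGp_clvar (hB.mu k).diag (k :: w) a).isG
  obtain ⟨g3, g4⟩ := h n B1 hB w k a
  rw [e1, e2]
  exact ⟨g3, g4⟩

theorem end57 (h : StInt57) :
  ∀ n : ℕ,
  (fun (mu : Fin n → Matrix (Fin n) (Fin n) ℤ → Matrix (Fin n) (Fin n) ℤ)
       (step : (Fin n → FractionRing (MvPolynomial (Fin n ⊕ Fin n) ℚ)) × (Fin n ⊕ Fin n → Fin n → ℤ) →
          Fin n → (Fin n → FractionRing (MvPolynomial (Fin n ⊕ Fin n) ℚ)) × (Fin n ⊕ Fin n → Fin n → ℤ)) =>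
    (fun (clvar : Matrix (Fin n) (Fin n) ℤ → List (Fin n) → Fin n → FractionRing (MvPolynomial (Fin n ⊕ Fin n) ℚ)) =>
      (fun (isG : Matrix (Fin n) (Fin n) ℤ → FractionRing (MvPolynomial (Fin n ⊕ Fin n) ℚ) → (Fin n → ℤ) → Prop) =>
        ∀ B1 : Matrix (Fin n) (Fin n) ℤ,
          (∀ w : List (Fin n), ∀ i j : Fin n,
            (fun M : Matrix (Fin n) (Fin n) ℤ => (M i j = 0 ∧ M j i = 0) ∨ M i j * M j i < 0)
              (List.foldl (fun M k => mu k M) B1 w)) →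
          ∀ k a : Fin n, ∀ w : List (Fin n), ∀ g1 g2 : Fin n → ℤ,
            isG B1 (clvar B1 w a) g1 →
            isG (mu k B1) (clvar (mu k B1) (k :: w) a) g2 →
            g2 k = -g1 k ∧
              ∀ i : Fin n, i ≠ k → g2 i = g1 i + max (B1 i k) 0 * g1 k - B1 i k * min (g1 k) 0)
      (fun (B : Matrix (Fin n) (Fin n) ℤ) (f : FractionRing (MvPolynomial (Fin n ⊕ Fin n) ℚ)) (g : Fin n → ℤ) =>
        ∃ P Q : MvPolynomial (Fin n ⊕ Fin n) ℚ, ∃ p q : Fin n → ℤ,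
          P ≠ 0 ∧ Q ≠ 0 ∧
          P.IsWeightedHomogeneous
            (Sum.elim (fun i => (Pi.single i (1:ℤ) : Fin n → ℤ)) (fun j i => -B i j)) p ∧
          Q.IsWeightedHomogeneous
            (Sum.elim (fun i => (Pi.single i (1:ℤ) : Fin n → ℤ)) (fun j i => -B i j)) q ∧
          p = q + g ∧
          f * algebraMap (MvPolynomial (Fin n ⊕ Fin n) ℚ) (FractionRing (MvPolynomial (Fin n ⊕ Fin n) ℚ)) Q
            = algebraMap (MvPolynomial (Fin n ⊕ Fin n) ℚ) (FractionRing (MvPolynomial (Fin n ⊕ Fin n) ℚ)) P))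
    (fun (B : Matrix (Fin n) (Fin n) ℤ) (w : List (Fin n)) (a : Fin n) =>
      (List.foldl step
        ((fun j => algebraMap (MvPolynomial (Fin n ⊕ Fin n) ℚ) (FractionRing (MvPolynomial (Fin n ⊕ Fin n) ℚ))
            (MvPolynomial.X (Sum.inl j))),
         (Sum.elim (fun i j => B i j) (fun i j => if i = j then (1:ℤ) else 0) : Fin n ⊕ Fin n → Fin n → ℤ))
        w).1 a))
  (fun (k : Fin n) (B : Matrix (Fin n) (Fin n) ℤ) =>
    Matrix.of (fun i j => if i = k ∨ j = k then -B i j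
      else B i j + max (B i k) 0 * max (B k j) 0 - max (-B i k) 0 * max (-B k j) 0))
  (fun (s : (Fin n → FractionRing (MvPolynomial (Fin n ⊕ Fin n) ℚ)) × (Fin n ⊕ Fin n → Fin n → ℤ)) (k : Fin n) =>
    ((fun j => if j = k then
        ((∏ i : Fin n ⊕ Fin n,
            (Sum.elim s.1 (fun m => algebraMap (MvPolynomial (Fin n ⊕ Fin n) ℚ)
              (FractionRing (MvPolynomial (Fin n ⊕ Fin n) ℚ)) (MvPolynomial.X (Sum.inr m))) i) ^ (s.2 i k).toNat)
         + ∏ i : Fin n ⊕ Fin n,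
            (Sum.elim s.1 (fun m => algebraMap (MvPolynomial (Fin n ⊕ Fin n) ℚ)
              (FractionRing (MvPolynomial (Fin n ⊕ Fin n) ℚ)) (MvPolynomial.X (Sum.inr m))) i) ^ (-s.2 i k).toNat)
        / s.1 k
      else s.1 j),
     (fun i j => if i = Sum.inl k ∨ j = k then -s.2 i j
        else s.2 i j + max (s.2 i k) 0 * max (s.2 (Sum.inl k) j) 0
          - max (-s.2 i k) 0 * max (-s.2 (Sum.inl k) j) 0))) := by
  intro n
  intro B1 hB k a w g1 g2 h1 h2
  exact own57 h n B1 hB k a w g1 g2 h1 h2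

end Pool.Agent.Lib.MP_51fc07_al.GV
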