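import Pool.Agent.Lib.MP_51fc07_al.GV.T3L26

/-!
The induction `PL n d → PL n (d + 1)` from the axis interface of module X.
-/

set_option autoImplicit false

namespace Pool.Agent.Lib.MP_51fc07_al.GV

open Pool.Agent.Lib.MP_51fc07_al

variable {n : ℕ}

/-- The interface of module X. `Res B w k σ` says that the row `k` of the G-matrix has the state
`σ`. -/
structure AxI (n : ℕ) (Res : Matrix (Fin n) (Fin n) ℤ → List (Fin n) → Fin n → ℤ → Prop) :
    Prop where
  zero : ∀ B, TSSS B → ∀ k, Res B [] k 1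
  stepA : ∀ B, TSSS B → ∀ w k σ ε l, Res B w k σ → VS ε (cst B w).C l →
    (∃ j, j ≠ k ∧ (cst B w).C j l ≠ 0) → Res B (w ++ [l]) k σ
  stepB : ∀ B, TSSS B → ∀ w k σ l, Res B w k σ → (σ = 1 ∨ σ = -1) →
    (∀ j, (cst B w).C j l = if j = k then σ else 0) →
    (∀ a, (cst B w).G k a = if a = l then σ else 0) → Res B (w ++ [l]) k (-σ)
  sign : ∀ B, TSSS B → ∀ w k σ, Res B w k σ → ∀ a, 0 ≤ σ * (cst B w).G k a

/-- if column `l` of `C(-Bᵀ, w)` is supported on `{k}` then row `k` of `G(B, w)` is `± e_l` -/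
theorem row_of_onlyAt {Ct G : Matrix (Fin n) (Fin n) ℤ} (h : Ct * G.transpose = 1) {k l : Fin n}
    (ho : OnlyAt Ct k l) {ε : ℤ} (hε : VS ε Ct l) :
    (∀ j, Ct j l = if j = k then ε else 0) ∧ ∀ a, G k a = if a = l then ε else 0 := by
  have h2 : G.transpose * Ct = 1 := mul_eq_one_comm.mp h
  have hent : ∀ a, G k a * Ct k l = if a = l then 1 else 0 := by
    intro a
    have := congrFun (congrFun h2 a) l
    rw [Matrix.mul_apply, Matrix.one_apply] at this
    rw [← this]
    symm
    rw [Finset.sum_eq_single k]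
    · rfl
    · intro b _ hb; rw [ho b hb, mul_zero]
    · intro h; exact absurd (Finset.mem_univ k) h
  have hl := hent l
  rw [if_pos rfl] at hl
  have hc : Ct k l = 1 ∨ Ct k l = -1 := by
    rw [mul_comm] at hl; exact unit_cases hl
  have he : ε = Ct k l := hε.eq_of_one rfl hc
  have hee : Ct k l * Ct k l = 1 := by rcases hc with h | h <;> rw [h] <;> norm_num
  constructor
  · intro j
    by_cases hj : j = k
    · rw [hj, if_pos rfl, he]
    · rw [if_neg hj]; exact ho j hj
  · intro a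
    have h3 := hent a
    have h4 : G k a = (if a = l then 1 else 0) * Ct k l := by
      rw [← h3, mul_assoc, hee, mul_one]
    rw [h4, he]
    by_cases ha : a = l
    · simp [ha]
    · simp [ha]

theorem sigma_eq {σ ε : ℤ} (h1 : σ = 1 ∨ σ = -1) (h2 : ε = 1 ∨ ε = -1) (h : 0 ≤ σ * ε) :
    σ = ε := by
  rcases h1 with rfl | rfl <;> rcases h2 with rfl | rfl <;> first | rfl | (exfalso; norm_num at h)

section

variable {Res : Matrix (Fin n) (Fin n) ℤ → List (Fin n) → Fin n → ℤ → Prop}

/-- Lemmas 2 and 3: equal states of the rows for `B` and `-Bᵀ`, for words of length at most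
`d + 1`. -/
theorem PL.states {d : ℕ} (hC : PL n d) (hR : AxI n Res) {B : Matrix (Fin n) (Fin n) ℤ}
    (hB : TSSS B) (w : List (Fin n)) (hw : w.length ≤ d + 1) (k : Fin n) :
    ∃ σ : ℤ, (σ = 1 ∨ σ = -1) ∧ Res B w k σ ∧ Res (-B.transpose) w k σ := by
  induction w using List.reverseRecOn with
  | nil => exact ⟨1, Or.inl rfl, hR.zero B hB k, hR.zero _ (TSSS_nt hB) k⟩
  | append_singleton w l ih =>
    have hl : w.length + 1 ≤ d + 1 := by simpa using hw
    obtain ⟨σ, hσ, r1, r2⟩ := ih (by omega)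
    obtain ⟨ε, e1, e2⟩ := hC.sign B hB w (by omega) l
    have hs := hC.supp B hB w (by omega) k l
    by_cases ho : OnlyAt (cst B w).C k l
    · have ho2 := hs.mp ho
      have a1 := row_of_onlyAt (hC.dual2' hB (w := w) (by omega)) ho e1
      have a2 := row_of_onlyAt (hC.dual2 hB (w := w) (by omega)) ho2 e2
      -- `a1.2`: row of `G(-Bᵀ)`, `a2.2`: row of `G(B)`
      have hσε : σ = ε := by
        have := hR.sign B hB w k σ r1 l
        rw [a2.2 l, if_pos rfl] at this
        exact sigma_eq hσ e1.1 this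
      subst hσε
      refine ⟨-σ, ?_, ?_, ?_⟩
      · rcases hσ with h | h <;> rw [h] <;> simp
      · exact hR.stepB B hB w k σ l r1 hσ a1.1 a2.2
      · exact hR.stepB _ (TSSS_nt hB) w k σ l r2 hσ a2.1 a1.2
    · have ho2 : ¬ OnlyAt (cst (-B.transpose) w).C k l := fun h => ho (hs.mpr h)
      unfold OnlyAt at ho ho2
      push Not at ho ho2
      exact ⟨σ, hσ, hR.stepA B hB w k σ ε l r1 e1 ho,
        hR.stepA _ (TSSS_nt hB) w k σ ε l r2 e2 ho2⟩

/-- Lemma 6 -/
theorem PL.C_eq {d : ℕ} (hC : PL n d) {B : Matrix (Fin n) (Fin n) ℤ}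
    (hB : TSSS B) (w : List (Fin n)) (hw : w.length ≤ d + 1) :
    (cst B w).C = (cst (muw B w).transpose w.reverse).G.transpose := by
  have hA : TSSS (muw B w).transpose := (TSSS_muw hB w).transpose
  have h := hC.T3' hA (w := w.reverse) (by simpa using hw)
  unfold T3 at h
  rw [h, List.reverse_reverse, muw_transpose, muw_reverse, Matrix.transpose_transpose]

theorem PL.sign_succ {d : ℕ} (hC : PL n d) (hR : AxI n Res) {B : Matrix (Fin n) (Fin n) ℤ}
    (hB : TSSS B) (w : List (Fin n)) (hw : w.length ≤ d + 1) (k : Fin n) :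
    ∃ ε : ℤ, VS ε (cst B w).C k ∧ VS ε (cst (-B.transpose) w).C k := by
  have hA : TSSS (muw B w).transpose := (TSSS_muw hB w).transpose
  obtain ⟨σ, hσ, r1, r2⟩ := hC.states hR hA w.reverse (by simpa using hw) k
  refine ⟨σ, ⟨hσ, fun j => ?_⟩, ⟨hσ, fun j => ?_⟩⟩
  · rw [hC.C_eq hB w hw, Matrix.transpose_apply]
    exact hR.sign _ hA _ k σ r1 j
  · rw [hC.C_eq (TSSS_nt hB) w hw, Matrix.transpose_apply]
    have e : (muw (-B.transpose) w).transpose = -((muw B w).transpose).transpose := by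
      rw [muw_neg, muw_transpose, Matrix.transpose_neg]
    rw [e]
    exact hR.sign _ (TSSS_nt hA) _ k σ r2 j

/-- Lemma 7 -/
theorem PL.supp_aux {d : ℕ} (hC : PL n d) (hR : AxI n Res) {B : Matrix (Fin n) (Fin n) ℤ}
    (hB : TSSS B) (w : List (Fin n)) (hw : w.length ≤ d + 1) (k l : Fin n)
    (ho : OnlyAt (cst (-B.transpose) w).C k l) : OnlyAt (cst B w).C k l := by
  by_contra hcon
  obtain ⟨ε, e1, e2⟩ := hC.sign_succ hR hB w hw l
  obtain ⟨σ, hσ, r1, _⟩ := hC.states hR hB w hw k
  have a2 := row_of_onlyAt (hC.dual2 hB (w := w) hw) ho e2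
  have hσε : σ = ε := by
    have := hR.sign B hB w k σ r1 l
    rw [a2.2 l, if_pos rfl] at this
    exact sigma_eq hσ e1.1 this
  subst hσε
  unfold OnlyAt at hcon
  push Not at hcon
  have r3 := hR.stepA B hB w k σ σ l r1 e1 hcon
  have h4 := hR.sign B hB _ k σ r3 l
  rw [G_append hB e1, mul_Fc_apply _ _ _ _ (hB.diag w l), if_pos rfl, a2.2 l, if_pos rfl] at h4
  have h5 : ∑ a, max (-σ * muw B w a l) 0 * (cst B w).G k a = 0 := by
    apply Finset.sum_eq_zero
    intro a _
    rw [a2.2 a]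
    by_cases ha : a = l
    · rw [ha, hB.diag w l]; simp
    · rw [if_neg ha, mul_zero]
  rw [h5] at h4
  rcases hσ with h | h <;> rw [h] at h4 <;> norm_num at h4

theorem PL.succ {d : ℕ} (hC : PL n d) (hR : AxI n Res) : PL n (d + 1) where
  sign B hB w hw k := hC.sign_succ hR hB w hw k
  supp B hB w hw j k := by
    constructor
    · intro h
      have := hC.supp_aux hR (TSSS_nt hB) w hw j k
      rw [nt_nt] at this
      exact this h
    · exact hC.supp_aux hR hB w hw j k

theorem PL.zero : PL n 0 where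
  sign B _ w hw k := by
    have : w = [] := List.length_eq_zero_iff.mp (Nat.le_zero.mp hw)
    subst this
    have h : VS 1 (1 : Matrix (Fin n) (Fin n) ℤ) k := by
      refine ⟨Or.inl rfl, fun j => ?_⟩
      rw [Matrix.one_apply]
      by_cases hj : j = k <;> simp [hj]
    exact ⟨1, h, h⟩
  supp B _ w hw j k := by
    have : w = [] := List.length_eq_zero_iff.mp (Nat.le_zero.mp hw)
    subst this
    exact Iff.rfl

theorem PL.all (hR : AxI n Res) (d : ℕ) : PL n d := by
  induction d with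
  | zero => exact PL.zero
  | succ d ih => exact ih.succ hR

/-- the change of the initial seed for the combinatorial data -/
theorem change26 (hR : AxI n Res) {B : Matrix (Fin n) (Fin n) ℤ} (hB : TSSS B)
    (w : List (Fin n)) (k a : Fin n) :
    (cst (mu k B) (k :: w)).G k a = -(cst B w).G k a ∧
    ∀ i, i ≠ k → (cst (mu k B) (k :: w)).G i a
      = (cst B w).G i a + max (B i k) 0 * (cst B w).G k a - B i k * min ((cst B w).G k a) 0 :=
  (PL.all hR w.length).G_change hB le_rfl k a

end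

/-- the change of the initial seed for the g-vectors of cluster variables -/
theorem final26 {Res : Matrix (Fin n) (Fin n) ℤ → List (Fin n) → Fin n → ℤ → Prop}
    (hR : AxI n Res) (B1 : Matrix (Fin n) (Fin n) ℤ) (hB : TSSS B1) (k a : Fin n)
    (w : List (Fin n)) (g1 g2 : Fin n → ℤ) (h1 : IsG B1 (clvar B1 w a) g1)
    (h2 : IsG (mu k B1) (clvar (mu k B1) (k :: w) a) g2) :
    g2 k = -g1 k ∧ ∀ i : Fin n, i ≠ k →
      g2 i = g1 i + max (B1 i k) 0 * g1 k - B1 i k * min (g1 k) 0 := by
  have e1 := h1.unique (isGp_clvar hB.diag w a).isG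
  have e2 := h2.unique (isGp_clvar (hB.mu k).diag (k :: w) a).isG
  have h := change26 hR hB w k a
  rw [e1, e2]
  exact h

end Pool.Agent.Lib.MP_51fc07_al.GV
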