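import Pool.Agent.Lib.MP_51fc07_al.GV.LauA22

/-!
Project GV (MP_51fc07_al): module L (Laurent phenomenon), statements.
-/

set_option autoImplicit false

universe u

namespace Pool.Agent.Lib.MP_51fc07_al.GV

open Pool.Agent.Lib.MP_51fc07_al

/-- (L) Laurent phenomenon: every cluster variable lies in every subring which contains the initial
values and their inverses; only the variables before the last step have to be different from `0` -/
def StLau : Prop := ∀ (n : ℕ) (M : EM n), Good M → ∀ (K : Type u) [Field K] (x y : Fin n → K),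
  (∀ a, x a ≠ 0) → (∀ a, y a ≠ 0) → ∀ w : List (Fin n),
  (∀ u, u <+: w → u ≠ w → ∀ a, (gseed y (x, M) u).1 a ≠ 0) → ∀ R : Subring K,
  (∀ a, x a ∈ R ∧ (x a)⁻¹ ∈ R ∧ y a ∈ R ∧ (y a)⁻¹ ∈ R) → ∀ a, (gseed y (x, M) w).1 a ∈ R

/-- (L') Laurent phenomenon at a neighbour seed: the same with the values of the neighbour seed in
direction `k` in place of the initial values -/
def StLauNb : Prop := ∀ (n : ℕ) (M : EM n), Good M → ∀ (K : Type u) [Field K] (x y : Fin n → K),
  (∀ a, x a ≠ 0) → (∀ a, y a ≠ 0) → ∀ (k : Fin n), (gstep y (x, M) k).1 k ≠ 0 →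
  ∀ w : List (Fin n),
  (∀ u, u <+: w → u ≠ w → ∀ a, (gseed y (x, M) u).1 a ≠ 0) → ∀ R : Subring K,
  (∀ a, (gstep y (x, M) k).1 a ∈ R ∧ ((gstep y (x, M) k).1 a)⁻¹ ∈ R ∧ y a ∈ R ∧ (y a)⁻¹ ∈ R) →
  ∀ a, (gseed y (x, M) w).1 a ∈ R

end Pool.Agent.Lib.MP_51fc07_al.GV
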