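import Pool.Agent.Lib.MP_51fc07_al.GV.StmtsR22
import Pool.Agent.Lib.MP_51fc07_al.GV.StmtsL22

/-!
Project GV (MP_51fc07_al): module L, the evaluation principle and the induction.
-/

set_option autoImplicit false

universe u

namespace Pool.Agent.Lib.MP_51fc07_al.GV

open Pool.Agent.Lib.MP_51fc07_al

variable {n : ℕ}

/-! ### Evaluation of Laurent polynomials -/

/-- evaluation of monomials -/
noncomputable def evm {K : Type*} [Field K] (v : Fin n ⊕ Fin n → K) (hv : ∀ s, v s ≠ 0) :
    Multiplicative (Fin n ⊕ Fin n → ℤ) →* K where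
  toFun e := ∏ s, v s ^ (e.toAdd s)
  map_one' := by simp
  map_mul' e f := by
    rw [← Finset.prod_mul_distrib]
    refine Finset.prod_congr rfl fun s _ => ?_
    rw [toAdd_mul, Pi.add_apply, zpow_add₀ (hv s)]

/-- evaluation -/
noncomputable def evh {K : Type*} [Field K] (v : Fin n ⊕ Fin n → K) (hv : ∀ s, v s ≠ 0) :
    LA n →+* K := (AddMonoidAlgebra.lift ℤ K (Fin n ⊕ Fin n → ℤ) (evm v hv)).toRingHom

theorem evh_single {K : Type*} [Field K] (v : Fin n ⊕ Fin n → K) (hv : ∀ s, v s ≠ 0)
    (e : Fin n ⊕ Fin n → ℤ) (r : ℤ) :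
    evh v hv (AddMonoidAlgebra.single e r) = (r : K) * ∏ s, v s ^ (e s) := by
  show AddMonoidAlgebra.lift ℤ K (Fin n ⊕ Fin n → ℤ) (evm v hv) (AddMonoidAlgebra.single e r) = _
  rw [AddMonoidAlgebra.lift_single]
  simp [evm]

theorem evh_lt {K : Type*} [Field K] (v : Fin n ⊕ Fin n → K) (hv : ∀ s, v s ≠ 0)
    (s : Fin n ⊕ Fin n) : evh v hv (lt s) = v s := by
  classical
  rw [lt, mon, evh_single, Finset.prod_eq_single s]
  · simp
  · intro b _ hb
    rw [Pi.single_eq_of_ne hb, zpow_zero]
  · intro h
    exact absurd (Finset.mem_univ s) h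

theorem evh_mem {K : Type*} [Field K] (v : Fin n ⊕ Fin n → K) (hv : ∀ s, v s ≠ 0)
    (R : Subring K) (hR : ∀ s, v s ∈ R ∧ (v s)⁻¹ ∈ R) (p : LA n) : evh v hv p ∈ R := by
  induction p using AddMonoidAlgebra.induction_linear with
  | zero => rw [map_zero]; exact R.zero_mem
  | add p q hp hq => rw [map_add]; exact R.add_mem hp hq
  | single e r =>
    rw [evh_single]
    refine R.mul_mem (intCast_mem R r) (Subring.prod_mem R fun s _ => ?_)
    rcases Int.eq_nat_or_neg (e s) with ⟨m, hm | hm⟩
    · rw [hm, zpow_natCast]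
      exact R.pow_mem (hR s).1 m
    · rw [hm, zpow_neg, zpow_natCast, ← inv_pow]
      exact R.pow_mem (hR s).2 m

theorem map_rhs {K : Type*} [Field K] (f : LA n →+* K) (x : Fin n → LA n)
    (c : Fin n ⊕ Fin n → ℤ) : f (rhs x c) =
    ∏ s, (Sum.elim (fun a => f (x a)) (fun m => f (lt (Sum.inr m))) s) ^ (c s).toNat +
      ∏ s, (Sum.elim (fun a => f (x a)) (fun m => f (lt (Sum.inr m))) s) ^ (-c s).toNat := by
  have h : ∀ s : Fin n ⊕ Fin n, f (Sum.elim x (fun m => lt (Sum.inr m)) s) =
      Sum.elim (fun a => f (x a)) (fun m => f (lt (Sum.inr m))) s := by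
    rintro (s | s) <;> rfl
  unfold rhs
  rw [map_add, map_prod, map_prod]
  simp_rw [map_pow, h]

/-! ### The field of fractions -/

/-- the field of fractions of the ring of Laurent polynomials -/
abbrev LK (n : ℕ) : Type := FractionRing (LA n)

/-- the embedding -/
noncomputable def phi (n : ℕ) : LA n →+* LK n := algebraMap (LA n) (LK n)

theorem phi_inj : Function.Injective (phi n) := IsFractionRing.injective (LA n) (LK n)

/-- universal cluster -/
noncomputable def XA (a : Fin n) : LK n := phi n (lt (Sum.inl a))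

/-- universal coefficients -/
noncomputable def YA (m : Fin n) : LK n := phi n (lt (Sum.inr m))

/-- sum of the coefficients -/
noncomputable def aug (n : ℕ) : LA n →+* ℚ := evh (fun _ => (1 : ℚ)) (fun _ => one_ne_zero)

theorem aug_lt (s : Fin n ⊕ Fin n) : aug n (lt s) = 1 := evh_lt _ _ s

/-- quotients with positive augmentation -/
def Ps (f : LK n) : Prop := ∃ P Q : LA n, 0 < aug n P ∧ 0 < aug n Q ∧ f * phi n Q = phi n P

theorem phi_ne {P : LA n} (h : 0 < aug n P) : phi n P ≠ 0 := by
  intro h1
  have h2 : P = 0 := phi_inj (by rw [h1, map_zero])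
  rw [h2, map_zero] at h
  exact lt_irrefl _ h

theorem Ps.ne {f : LK n} (h : Ps f) : f ≠ 0 := by
  obtain ⟨P, Q, h1, h2, h3⟩ := h
  rintro rfl
  rw [zero_mul] at h3
  exact phi_ne h1 h3.symm

theorem Ps.mul {f g : LK n} (h : Ps f) (h' : Ps g) : Ps (f * g) := by
  obtain ⟨P, Q, h1, h2, h3⟩ := h
  obtain ⟨P', Q', h1', h2', h3'⟩ := h'
  refine ⟨P * P', Q * Q', ?_, ?_, ?_⟩
  · rw [map_mul]; exact mul_pos h1 h1'
  · rw [map_mul]; exact mul_pos h2 h2'
  · rw [map_mul, map_mul, ← h3, ← h3']; ring

theorem Ps.add {f g : LK n} (h : Ps f) (h' : Ps g) : Ps (f + g) := by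
  obtain ⟨P, Q, h1, h2, h3⟩ := h
  obtain ⟨P', Q', h1', h2', h3'⟩ := h'
  refine ⟨P * Q' + P' * Q, Q * Q', ?_, ?_, ?_⟩
  · rw [map_add, map_mul, map_mul]; positivity
  · rw [map_mul]; exact mul_pos h2 h2'
  · rw [map_mul, map_add, map_mul, map_mul, ← h3, ← h3']; ring

theorem Ps.inv {f : LK n} (h : Ps f) : Ps f⁻¹ := by
  have hf := h.ne
  obtain ⟨P, Q, h1, h2, h3⟩ := h
  exact ⟨Q, P, h2, h1, by rw [← h3]; field_simp⟩

theorem Ps.one : Ps (1 : LK n) := ⟨1, 1, by simp, by simp, by simp⟩

theorem Ps.pow {f : LK n} (h : Ps f) (m : ℕ) : Ps (f ^ m) := by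
  induction m with
  | zero => rw [pow_zero]; exact Ps.one
  | succ m ih => rw [pow_succ]; exact ih.mul h

theorem Ps.prod {ι : Type*} (s : Finset ι) (f : ι → LK n) (h : ∀ i ∈ s, Ps (f i)) :
    Ps (∏ i ∈ s, f i) := by
  classical
  induction s using Finset.induction_on with
  | empty => rw [Finset.prod_empty]; exact Ps.one
  | insert a s ha ih =>
    rw [Finset.prod_insert ha]
    exact (h a (Finset.mem_insert_self a s)).mul
      (ih fun i hi => h i (Finset.mem_insert_of_mem hi))

theorem Ps.lt (s : Fin n ⊕ Fin n) : Ps (phi n (lt s)) :=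
  ⟨GV.lt s, 1, by rw [aug_lt]; exact one_pos, by simp, by simp⟩

theorem ps_seed (M : EM n) (w : List (Fin n)) :
    ∀ a, Ps ((gseed YA (XA, M) w).1 a) := by
  induction w using List.reverseRecOn with
  | nil => intro a; exact Ps.lt _
  | append_singleton w l ih =>
    intro a
    rw [gseed_append]
    show Ps (if a = l then _ else _)
    split_ifs with h
    · rw [div_eq_mul_inv]
      have hs : ∀ s, Ps (Sum.elim (gseed YA (XA, M) w).1 YA s) := by
        rintro (s | s)
        · exact ih s
        · exact Ps.lt _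
      exact ((Ps.prod _ _ fun s _ => (hs s).pow _).add (Ps.prod _ _ fun s _ => (hs s).pow _)).mul
        (ih l).inv
    · exact ih a

theorem nz (M : EM n) (w : List (Fin n)) (a : Fin n) : (gseed YA (XA, M) w).1 a ≠ 0 :=
  (ps_seed M w a).ne

/-- the variables at the word `w` are Laurent polynomials -/
def Lau (M : EM n) (w : List (Fin n)) : Prop :=
  ∀ a, ∃ p : LA n, phi n p = (gseed YA (XA, M) w).1 a

/-- the evaluation principle -/
theorem evp {K : Type*} [Field K] (v : Fin n ⊕ Fin n → K) (hv : ∀ s, v s ≠ 0) (M : EM n)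
    (w : List (Fin n)) : (∀ u, u <+: w → Lau M u) →
    (∀ u, u <+: w → u ≠ w → ∀ a,
      (gseed (fun m => v (Sum.inr m)) (fun a => v (Sum.inl a), M) u).1 a ≠ 0) →
    ∀ a p, phi n p = (gseed YA (XA, M) w).1 a →
      (gseed (fun m => v (Sum.inr m)) (fun a => v (Sum.inl a), M) w).1 a = evh v hv p := by
  induction w using List.reverseRecOn with
  | nil =>
    intro _ _ a p hp
    have h1 : p = lt (Sum.inl a) := phi_inj hp
    rw [h1, evh_lt]
    rfl
  | append_singleton w l ih =>
    intro hL hnz a p hp
    have ih' := ih (fun u hu => hL u (hu.trans (List.prefix_append w [l]))) (fun u hu hne =>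
      hnz u (hu.trans (List.prefix_append w [l])) (fun h => by
        have h1 := hu.length_le
        rw [h] at h1
        simp at h1))
    rw [gseed_append] at hp ⊢
    by_cases ha : a = l
    · subst ha
      have hLw := hL w (List.prefix_append w [a])
      choose q hq using hLw
      have hnw := hnz w (List.prefix_append w [a]) (fun h => by
        have h1 := congrArg List.length h
        simp at h1) a
      have e1 : (gstep YA (gseed YA (XA, M) w) a).1 a =
          phi n (rhs q (fun s => mseed M w s a)) / phi n (q a) := by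
        rw [map_rhs]
        simp_rw [hq]
        show (if a = a then _ else _) = _
        rw [if_pos rfl, gseed_snd]
        rfl
      rw [e1] at hp
      have hqa : phi n (q a) ≠ 0 := by
        rw [hq]
        exact nz M w a
      have e2 : p * q a = rhs q (fun s => mseed M w s a) := by
        apply phi_inj
        rw [map_mul, hp]
        field_simp
      have e3 := congrArg (evh v hv) e2
      rw [map_mul, map_rhs] at e3
      have e4 : ∀ b, evh v hv (q b) =
          (gseed (fun m => v (Sum.inr m)) (fun a => v (Sum.inl a), M) w).1 b :=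
        fun b => (ih' b (q b) (hq b)).symm
      simp_rw [e4, evh_lt] at e3
      show (if a = a then _ else _) = _
      rw [if_pos rfl, gseed_snd, div_eq_iff hnw, e3]
    · have e1 : (gstep YA (gseed YA (XA, M) w) l).1 a = (gseed YA (XA, M) w).1 a := by
        show (if a = l then _ else _) = _
        rw [if_neg ha]
      rw [e1] at hp
      show (if a = l then _ else _) = _
      rw [if_neg ha]
      exact ih' a p hp

/-! ### Localisation -/

/-- elements of `LK` with denominators powers of `D` -/
def locR (D : LA n) : Subring (LK n) where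
  carrier := {z | ∃ (N : ℕ) (q : LA n), phi n D ^ N * z = phi n q}
  mul_mem' := by
    rintro a b ⟨N, q, h⟩ ⟨N', q', h'⟩
    exact ⟨N + N', q * q', by rw [map_mul, ← h, ← h', pow_add]; ring⟩
  one_mem' := ⟨0, 1, by simp⟩
  add_mem' := by
    rintro a b ⟨N, q, h⟩ ⟨N', q', h'⟩
    exact ⟨N + N', D ^ N' * q + D ^ N * q', by
      rw [map_add, map_mul, map_mul, ← h, ← h', pow_add, map_pow, map_pow]; ring⟩
  zero_mem' := ⟨0, 0, by simp⟩
  neg_mem' := by
    rintro a ⟨N, q, h⟩
    exact ⟨N, -q, by rw [map_neg, ← h]; ring⟩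

theorem loc_phi (D p : LA n) : phi n p ∈ locR D := ⟨0, p, by simp⟩

theorem loc_inv {D x : LA n} (h0 : phi n x ≠ 0) (h : x ∣ D) : (phi n x)⁻¹ ∈ locR D := by
  obtain ⟨q, hq⟩ := h
  refine ⟨1, q, ?_⟩
  rw [hq, pow_one, map_mul]
  field_simp

theorem pow_dvd {u t : LA n} (h : ∀ f, u ∣ t * f → u ∣ f) (hu : u ≠ 0) (N' : ℕ) :
    ∀ (N : ℕ) (f : LA n), u ^ N ∣ t ^ N' * f → u ^ N ∣ f := by
  have h1 : ∀ (N' : ℕ) (f : LA n), u ∣ t ^ N' * f → u ∣ f := by
    intro N'
    induction N' with
    | zero => intro f hf; simpa using hf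
    | succ N' ih =>
      intro f hf
      apply h
      apply ih
      rwa [← mul_assoc, ← pow_succ]
  intro N
  induction N with
  | zero => intro f _; simp
  | succ N ih =>
    intro f hf
    have h2 : u ∣ f := h1 N' f ((Dvd.intro_left (u ^ N) (pow_succ u N).symm).trans hf)
    obtain ⟨g, hg⟩ := h2
    rw [hg, pow_succ']
    apply mul_dvd_mul_left
    apply ih
    rw [hg, pow_succ'] at hf
    have h3 : t ^ N' * (u * g) = u * (t ^ N' * g) := by ring
    rw [h3] at hf
    exact (mul_dvd_mul_iff_left hu).1 hf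

theorem unit_lt (s : Fin n ⊕ Fin n) : IsUnit (lt s : LA n) := by
  refine IsUnit.of_mul_eq_one (mon (-Pi.single s 1)) ?_
  unfold lt mon
  rw [AddMonoidAlgebra.single_mul_single, add_neg_cancel]
  rfl

/-- one mutation inside `LA n` -/
theorem gstep_phi (x : Fin n → LA n) (M : EM n) (k : Fin n) (z : LA n) (h0 : phi n (x k) ≠ 0)
    (h : x k * z = rhs x (fun s => M s k)) :
    gstep YA (fun a => phi n (x a), M) k =
      (fun a => phi n (Function.update x k z a), mstep M k) := by
  refine Prod.ext ?_ rfl
  funext a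
  by_cases ha : a = k
  · subst ha
    show (if a = a then _ else _) = phi n (Function.update x a z a)
    rw [Function.update_self, if_pos rfl]
    have h1 := congrArg (phi n) h
    rw [map_mul, map_rhs] at h1
    rw [div_eq_iff h0, mul_comm, h1]
    rfl
  · show (if a = k then _ else _) = phi n (Function.update x k z a)
    rw [if_neg ha, Function.update_of_ne ha]

/-- the main step -/
theorem main_step (hR2 : StR2) {m : ℕ} (ih : ∀ M : EM n, Good M → ∀ w : List (Fin n),
    w.length ≤ m → Lau M w) {M : EM n} (hM : Good M) {i j : Fin n} (hij : i ≠ j)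
    (hb : 0 ≤ M (Sum.inl i) j) (w : List (Fin n)) (hw : w.length + 1 ≤ m) :
    Lau M (i :: j :: w) := by
  classical
  obtain ⟨u, v, r, h1, h2, h3, h4, h5⟩ := hR2 n M hM i j hij hb
  have hM1 := hM.step i
  have hM2 := hM1.step j
  have hM3 := hM2.step i
  set x0 : Fin n → LA n := fun a => lt (Sum.inl a) with hx0
  set x1 := Function.update x0 i u with hx1
  set x2 := Function.update x1 j v with hx2
  set x3 := Function.update x2 i r with hx3
  have f1 : gstep YA (XA, M) i = (fun a => phi n (x1 a), mstep M i) :=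
    gstep_phi x0 M i u (Ps.lt _).ne h1
  have f2 : gstep YA (fun a => phi n (x1 a), mstep M i) j =
      (fun a => phi n (x2 a), mstep (mstep M i) j) := by
    refine gstep_phi x1 (mstep M i) j v ?_ ?_
    · rw [hx1, Function.update_of_ne hij.symm]
      exact (Ps.lt _).ne
    · rw [hx1, Function.update_of_ne hij.symm]
      exact h2
  have x2i : x2 i = u := by
    rw [hx2, Function.update_of_ne hij, hx1, Function.update_self]
  have n1 : ∀ a, phi n (x1 a) ≠ 0 := by
    intro a
    have := nz M [i] a
    rw [show gseed YA (XA, M) [i] = gstep YA (XA, M) i from rfl, f1] at this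
    exact this
  have n2 : ∀ a, phi n (x2 a) ≠ 0 := by
    intro a
    have := nz M [i, j] a
    rw [show gseed YA (XA, M) [i, j] = gstep YA (gstep YA (XA, M) i) j from rfl, f1, f2] at this
    exact this
  have f3 : gstep YA (fun a => phi n (x2 a), mstep (mstep M i) j) i =
      (fun a => phi n (x3 a), mstep (mstep (mstep M i) j) i) := by
    refine gstep_phi x2 _ i r (n2 i) ?_
    rw [x2i]
    exact h3
  have n3 : ∀ a, phi n (x3 a) ≠ 0 := by
    intro a
    have := nz M [i, j, i] a
    rw [show gseed YA (XA, M) [i, j, i] = gstep YA (gstep YA (gstep YA (XA, M) i) j) i from rfl,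
      f1, f2, f3] at this
    exact this
  have f4 : gstep YA (fun a => phi n (x3 a), mstep (mstep (mstep M i) j) i) i =
      (fun a => phi n (x2 a), mstep (mstep M i) j) := by
    have := gstep_gstep YA (fun a => phi n (x2 a), mstep (mstep M i) j) i (hM2.diag i) (n2 i)
      (by rw [f3]; exact n3 i)
    rwa [f3] at this
  intro a
  set z := (gseed YA (XA, M) (i :: j :: w)).1 a with hz
  have YAne : ∀ b : Fin n, (YA b : LK n) ≠ 0 := fun b => (Ps.lt _).ne
  -- first expression
  have g1 : ∃ (N : ℕ) (q : LA n), phi n u ^ N * z = phi n q := by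
    set v1 : Fin n ⊕ Fin n → LK n := Sum.elim (fun a => phi n (x1 a)) YA with hv1
    have hv1n : ∀ s, v1 s ≠ 0 := by
      rintro (s | s)
      · exact n1 s
      · exact YAne s
    obtain ⟨p1, hp1⟩ := ih (mstep M i) hM1 (j :: w) hw a
    have e1 := evp v1 hv1n (mstep M i) (j :: w)
      (fun u' hu' => ih _ hM1 u' (hu'.length_le.trans hw))
      (fun u' _ _ b => by
        have := nz M (i :: u') b
        rw [show gseed YA (XA, M) (i :: u') = gseed YA (gstep YA (XA, M) i) u' from rfl,
          f1] at this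
        exact this) a p1 hp1
    have e2 : z = evh v1 hv1n p1 := by
      rw [← e1, hz, show gseed YA (XA, M) (i :: j :: w) = gseed YA (gstep YA (XA, M) i) (j :: w)
        from rfl, f1]
      rfl
    have e3 : z ∈ locR u := by
      rw [e2]
      refine evh_mem v1 hv1n (locR u) ?_ p1
      rintro (s | s)
      · refine ⟨loc_phi u _, loc_inv (n1 s) ?_⟩
        by_cases hs : s = i
        · rw [hs, hx1, Function.update_self]
        · rw [hx1, Function.update_of_ne hs]
          exact (unit_lt _).dvd
      · exact ⟨loc_phi u _, loc_inv (YAne s) (unit_lt _).dvd⟩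
    exact e3
  -- second expression
  have g2 : ∃ (N : ℕ) (q : LA n), phi n (v * r) ^ N * z = phi n q := by
    set M3 := mstep (mstep (mstep M i) j) i with hM3d
    set v3 : Fin n ⊕ Fin n → LK n := Sum.elim (fun a => phi n (x3 a)) YA with hv3
    have hv3n : ∀ s, v3 s ≠ 0 := by
      rintro (s | s)
      · exact n3 s
      · exact YAne s
    have hl : (i :: w).length ≤ m := hw
    obtain ⟨p3, hp3⟩ := ih M3 hM3 (i :: w) hl a
    have e1 := evp v3 hv3n M3 (i :: w)
      (fun u' hu' => ih _ hM3 u' (hu'.length_le.trans hl))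
      (fun u' _ _ b => by
        have := nz M (i :: j :: i :: u') b
        rw [show gseed YA (XA, M) (i :: j :: i :: u') =
          gseed YA (gstep YA (gstep YA (gstep YA (XA, M) i) j) i) u' from rfl,
          f1, f2, f3] at this
        exact this) a p3 hp3
    have e2 : z = evh v3 hv3n p3 := by
      rw [← e1, hz, show gseed YA (XA, M) (i :: j :: w) =
        gseed YA (gstep YA (gstep YA (XA, M) i) j) w from rfl, f1, f2, ← f4]
      rfl
    have e3 : z ∈ locR (v * r) := by
      rw [e2]
      refine evh_mem v3 hv3n (locR (v * r)) ?_ p3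
      rintro (s | s)
      · refine ⟨loc_phi _ _, loc_inv (n3 s) ?_⟩
        by_cases hs : s = i
        · rw [hs, hx3, Function.update_self]
          exact Dvd.intro_left v rfl
        · by_cases hs' : s = j
          · rw [hs', hx3, Function.update_of_ne hij.symm, hx2, Function.update_self]
            exact Dvd.intro r rfl
          · rw [hx3, Function.update_of_ne hs, hx2, Function.update_of_ne hs', hx1,
              Function.update_of_ne hs]
            exact (unit_lt _).dvd
      · exact ⟨loc_phi _ _, loc_inv (YAne s) (unit_lt _).dvd⟩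
    exact e3
  obtain ⟨N, q1, hq1⟩ := g1
  obtain ⟨N', q2, hq2⟩ := g2
  have hu0 : phi n u ≠ 0 := by
    have := n1 i
    rwa [hx1, Function.update_self] at this
  have hu : u ≠ 0 := by
    intro h
    rw [h, map_zero] at hu0
    exact hu0 rfl
  have e1 : (v * r) ^ N' * q1 = u ^ N * q2 := by
    apply phi_inj
    rw [map_mul, map_mul, map_pow, map_pow, ← hq1, ← hq2]
    ring
  have e2 : u ^ N ∣ q1 := by
    refine pow_dvd (t := v * r) ?_ hu N' N q1 (Dvd.intro q2 e1.symm)
    intro f hf
    rw [mul_assoc] at hf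
    exact h5 f (h4 _ hf)
  obtain ⟨q, hq⟩ := e2
  refine ⟨q, ?_⟩
  rw [hq, map_mul, map_pow] at hq1
  exact (mul_left_cancel₀ (pow_ne_zero N hu0) hq1).symm

theorem lau_neg {M : EM n} {w : List (Fin n)} (h : Lau (-M) w) : Lau M w := by
  intro a
  obtain ⟨p, hp⟩ := h a
  rw [gseed_neg] at hp
  exact ⟨p, hp⟩

theorem lau_all (hR2 : StR2) (m : ℕ) : ∀ M : EM n, Good M → ∀ w : List (Fin n),
    w.length ≤ m → Lau M w := by
  classical
  induction m with
  | zero =>
    intro M _ w hw
    have : w = [] := List.length_eq_zero_iff.1 (by omega)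
    subst this
    exact fun a => ⟨lt (Sum.inl a), rfl⟩
  | succ m ih =>
    intro M hM w hw
    match w, hw with
    | [], _ => exact fun a => ⟨lt (Sum.inl a), rfl⟩
    | [i], _ =>
      have h1 : ∃ u : LA n, lt (Sum.inl i) * u =
          rhs (fun a => lt (Sum.inl a)) (fun s => M s i) := by
        obtain ⟨w, hw⟩ := (unit_lt (n := n) (Sum.inl i)).exists_right_inv
        exact ⟨w * rhs (fun a => lt (Sum.inl a)) (fun s => M s i), by
          rw [← mul_assoc, hw, one_mul]⟩
      obtain ⟨u, hu⟩ := h1
      have f1 : gstep YA (XA, M) i =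
          (fun a => phi n (Function.update (fun a => lt (Sum.inl a)) i u a), mstep M i) :=
        gstep_phi (fun a => lt (Sum.inl a)) M i u (Ps.lt _).ne hu
      intro a
      refine ⟨Function.update (fun a => lt (Sum.inl a)) i u a, ?_⟩
      rw [show gseed YA (XA, M) [i] = gstep YA (XA, M) i from rfl, f1]
    | i :: j :: w, hw =>
      have hw' : w.length + 1 ≤ m := by
        simp only [List.length_cons] at hw
        omega
      by_cases hij : i = j
      · subst hij
        have e1 : gseed YA (XA, M) (i :: i :: w) = gseed YA (XA, M) w := by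
          show gseed YA (gstep YA (gstep YA (XA, M) i) i) w = _
          rw [gstep_gstep YA (XA, M) i (hM.diag i) (nz M [] i) (nz M [i] i)]
        intro a
        rw [e1]
        exact ih M hM w (by omega) a
      · rcases le_total 0 (M (Sum.inl i) j) with hb | hb
        · exact main_step hR2 ih hM hij hb w hw'
        · apply lau_neg
          refine main_step hR2 ih hM.neg hij ?_ w hw'
          simpa using hb

/-- the Laurent phenomenon -/
theorem lau22 (hR2 : StR2) : StLau.{u} := by
  intro n M hM K _ x y hx hy w hnz R hR a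
  have hv : ∀ s, Sum.elim x y s ≠ 0 := by
    rintro (s | s)
    · exact hx s
    · exact hy s
  obtain ⟨p, hp⟩ := lau_all hR2 w.length M hM w le_rfl a
  have h1 := evp (Sum.elim x y) hv M w (fun u _ => lau_all hR2 u.length M hM u le_rfl) hnz a p hp
  have h2 : (gseed y (x, M) w).1 a = evh (Sum.elim x y) hv p := h1
  rw [h2]
  refine evh_mem _ hv R ?_ p
  rintro (s | s)
  · exact ⟨(hR s).1, (hR s).2.1⟩
  · exact (hR s).2.2

/-- the Laurent phenomenon at a neighbour -/
theorem lauNb22 (hR2 : StR2) : StLauNb.{u} := by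
  intro n M hM K _ x y hx hy k hk w hnz R hR a
  have hinv := gstep_gstep y (x, M) k (hM.diag k) (hx k) hk
  set x' := (gstep y (x, M) k).1 with hx'
  have hpair : gstep y (x, M) k = (x', mstep M k) := rfl
  rw [hpair] at hinv
  have hx'n : ∀ b, x' b ≠ 0 := by
    intro b
    by_cases hb : b = k
    · rw [hb]
      exact hk
    · have : x' b = x b := by
        show (if b = k then _ else _) = _
        rw [if_neg hb]
      rw [this]
      exact hx b
  have h1 : gseed y (x, M) w = gseed y (x', mstep M k) (k :: w) := by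
    show _ = gseed y (gstep y (x', mstep M k) k) w
    rw [hinv]
  rw [h1]
  refine lau22 hR2 n (mstep M k) (hM.step k) K x' y hx'n hy (k :: w) ?_ R hR a
  intro u hu hne b
  cases u with
  | nil => exact hx'n b
  | cons c u =>
    rw [List.cons_prefix_cons] at hu
    obtain ⟨hc, hu⟩ := hu
    subst hc
    show (gseed y (gstep y (x', mstep M c) c) u).1 b ≠ 0
    rw [hinv]
    exact hnz u hu (fun h => hne (by rw [h])) b

end Pool.Agent.Lib.MP_51fc07_al.GV
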