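import Pool.Agent.Lib.MP_51fc07_al.GV.Axis9
import Pool.Agent.Lib.MP_51fc07_al.GV.Ind26
import Pool.Agent.Lib.MP_51fc07_al.GV.End57
import Pool.Agent.Lib.MP_51fc07_al.GV.LauB22

/-!
Project GV (MP_51fc07_al): module X in the form of the interface `AxI`, and the reduction of the
theorem to the rank two step.
-/

set_option autoImplicit false

namespace Pool.Agent.Lib.MP_51fc07_al.GV

open Pool.Agent.Lib.MP_51fc07_al

theorem axI9 (hL : StLau.{0}) (hN : StLauNb.{0}) (n : ℕ) : AxI n Axis9.Res where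
  zero := fun B _ k => Axis9.zero B k
  stepA := fun _ hB _ _ _ _ _ h hε hj => Axis9.stepA hB h hε hj
  stepB := fun _ hB _ _ _ _ h _ hC hG => Axis9.stepB hB h hC hG
  sign := fun _ hB _ _ _ h a => Axis9.sign hL hN hB h a

theorem stInt9 (hR2 : StR2) : StInt57 := fun n B hB w k a =>
  change26 (axI9 (lau22 hR2) (lauNb22 hR2) n) hB w k a

end Pool.Agent.Lib.MP_51fc07_al.GV
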