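import Pool.Agent.Lib.MP_51fc07_al.GV.StmtsL22

/-!
Project GV (MP_51fc07_al): module X (restriction to a coordinate axis), by two evaluations in the
field of Laurent series over `ℚ`.
-/

set_option autoImplicit false

namespace Pool.Agent.Lib.MP_51fc07_al.GV.Axis9

open Pool.Agent.Lib.MP_51fc07_al Pool.Agent.Lib.MP_51fc07_al.GV

variable {n : ℕ}

/-- Laurent series -/
abbrev KL : Type := LaurentSeries ℚ

/-- `f` is a power series with constant coefficient `r` -/
def IsRes (f : KL) (r : ℚ) : Prop :=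
  ∃ p : PowerSeries ℚ, f = HahnSeries.ofPowerSeries ℤ ℚ p ∧ PowerSeries.constantCoeff p = r

theorem IsRes.mul {f g : KL} {r s : ℚ} (hf : IsRes f r) (hg : IsRes g s) :
    IsRes (f * g) (r * s) := by
  obtain ⟨p, rfl, rfl⟩ := hf
  obtain ⟨q, rfl, rfl⟩ := hg
  exact ⟨p * q, (map_mul _ _ _).symm, map_mul _ _ _⟩

theorem IsRes.add {f g : KL} {r s : ℚ} (hf : IsRes f r) (hg : IsRes g s) :
    IsRes (f + g) (r + s) := by
  obtain ⟨p, rfl, rfl⟩ := hf
  obtain ⟨q, rfl, rfl⟩ := hg
  exact ⟨p + q, (map_add _ _ _).symm, map_add _ _ _⟩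

theorem IsRes.one : IsRes 1 1 := ⟨1, (map_one _).symm, map_one _⟩

theorem IsRes.pow {f : KL} {r : ℚ} (hf : IsRes f r) (m : ℕ) : IsRes (f ^ m) (r ^ m) := by
  obtain ⟨p, rfl, rfl⟩ := hf
  exact ⟨p ^ m, (map_pow _ _ _).symm, map_pow _ _ _⟩

theorem IsRes.prod {ι : Type*} (s : Finset ι) {f : ι → KL} {r : ι → ℚ}
    (h : ∀ i ∈ s, IsRes (f i) (r i)) : IsRes (∏ i ∈ s, f i) (∏ i ∈ s, r i) := by
  classical
  induction s using Finset.induction_on with
  | empty => simpa using IsRes.one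
  | insert a s ha ih =>
    rw [Finset.prod_insert ha, Finset.prod_insert ha]
    exact (h a (Finset.mem_insert_self a s)).mul
      (ih (fun i hi => h i (Finset.mem_insert_of_mem hi)))

theorem IsRes.coeff {f : KL} {r : ℚ} (hf : IsRes f r) : f.coeff 0 = r := by
  obtain ⟨p, rfl, rfl⟩ := hf
  have := HahnSeries.ofPowerSeries_apply_coeff (Γ := ℤ) p 0
  simpa using this

theorem IsRes.ne_zero {f : KL} {r : ℚ} (hf : IsRes f r) (hr : r ≠ 0) : f ≠ 0 := by
  rintro rfl
  have := hf.coeff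
  simp at this
  exact hr this.symm

theorem IsRes.div {f g : KL} {r s : ℚ} (hf : IsRes f r) (hg : IsRes g s) (hs : s ≠ 0) :
    IsRes (f / g) (r / s) := by
  have hg0 := hg.ne_zero hs
  obtain ⟨p, rfl, rfl⟩ := hf
  obtain ⟨q, rfl, rfl⟩ := hg
  refine ⟨p * q⁻¹, ?_, ?_⟩
  · rw [div_eq_iff hg0, ← map_mul, mul_assoc, PowerSeries.inv_mul_cancel _ hs, mul_one]
  · rw [map_mul, PowerSeries.constantCoeff_inv, div_eq_mul_inv]

theorem IsRes.C (r : ℚ) : IsRes (HahnSeries.C r) r :=
  ⟨PowerSeries.C r, by rw [HahnSeries.ofPowerSeries_C], PowerSeries.constantCoeff_C r⟩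

theorem IsRes.t : IsRes (HahnSeries.single (1 : ℤ) (1 : ℚ)) 0 :=
  ⟨PowerSeries.X, by rw [HahnSeries.ofPowerSeries_X], PowerSeries.constantCoeff_X⟩

/-- rational numbers which are `3`-adic integers -/
noncomputable def A3 : Subring ℚ := (PadicInt.subring 3).comap (Rat.castHom ℚ_[3])

theorem mem_A3 (q : ℚ) : q ∈ A3 ↔ ‖(q : ℚ_[3])‖ ≤ 1 := Iff.rfl

theorem three_zpow {e : ℤ} (h : (3 : ℚ) ^ e ∈ A3) : 0 ≤ e := by
  rw [mem_A3] at h
  have h1 : (((3 : ℚ) ^ e : ℚ) : ℚ_[3]) = ((3 : ℕ) : ℚ_[3]) ^ e := by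
    push_cast
    rfl
  rw [h1, Padic.norm_p_zpow] at h
  by_contra hc
  push Not at hc
  have h2 : (1 : ℝ) < ((3 : ℕ) : ℝ) ^ (-e) := one_lt_zpow₀ (by norm_num) (by omega)
  linarith

theorem mem_A3_nat {m : ℕ} (h : Nat.Coprime m 3) : ((m : ℚ))⁻¹ ∈ A3 := by
  rw [mem_A3]
  push_cast
  have h1 : ‖((m : ℕ) : ℚ_[3])‖ = 1 := by
    rw [Padic.norm_natCast_eq_one_iff]
    exact h.symm
  rw [norm_inv, h1]
  simp

/-- Laurent series with `3`-adically integral coefficients -/
noncomputable def RR : Subring KL where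
  carrier := {f | ∀ m, f.coeff m ∈ A3}
  mul_mem' := by
    intro f g hf hg m
    rw [HahnSeries.coeff_mul]
    exact A3.sum_mem fun ij _ => A3.mul_mem (hf _) (hg _)
  one_mem' := by
    intro m
    rw [HahnSeries.coeff_one]
    split_ifs
    · exact A3.one_mem
    · exact A3.zero_mem
  add_mem' := by
    intro f g hf hg m
    exact A3.add_mem (hf m) (hg m)
  zero_mem' := by
    intro m
    exact A3.zero_mem
  neg_mem' := by
    intro f hf m
    exact A3.neg_mem (hf m)

theorem single_mem_RR (m : ℤ) {r : ℚ} (h : r ∈ A3) : (HahnSeries.single m r : KL) ∈ RR := by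
  intro j
  rw [HahnSeries.coeff_single]
  split_ifs
  · exact h
  · exact A3.zero_mem

/-- initial values of the cluster variables -/
noncomputable def x0 (k : Fin n) (ξ : ℚ) : Fin n → KL :=
  fun i => if i = k then HahnSeries.C ξ else 1

/-- values of the coefficients -/
noncomputable def y0 (k : Fin n) : Fin n → KL :=
  fun i => if i = k then HahnSeries.C 2 else HahnSeries.single 1 1

/-- values of the cluster variables -/
noncomputable def vv (B : Matrix (Fin n) (Fin n) ℤ) (k : Fin n) (ξ : ℚ) (w : List (Fin n)) :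
    Fin n → KL := (gseed (y0 k) (x0 k ξ, ext B) w).1

theorem mat_eq (B : Matrix (Fin n) (Fin n) ℤ) (k : Fin n) (ξ : ℚ) (w : List (Fin n)) :
    (∀ i j, (gseed (y0 k) (x0 k ξ, ext B) w).2 (Sum.inl i) j = (cst B w).B i j) ∧
    (∀ i j, (gseed (y0 k) (x0 k ξ, ext B) w).2 (Sum.inr i) j = (cst B w).C i j) := by
  have h := seed_matrix B w
  rw [seed_eq, gseed_snd] at h
  rw [gseed_snd]
  exact h

theorem vv_append (B : Matrix (Fin n) (Fin n) ℤ) (k : Fin n) (ξ : ℚ) (w : List (Fin n))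
    (l a : Fin n) : vv B k ξ (w ++ [l]) a = if a = l then
      (((∏ i, (vv B k ξ w i) ^ ((cst B w).B i l).toNat) *
          ∏ m, (y0 k m) ^ ((cst B w).C m l).toNat)
        + ((∏ i, (vv B k ξ w i) ^ (-(cst B w).B i l).toNat) *
          ∏ m, (y0 k m) ^ (-(cst B w).C m l).toNat)) / vv B k ξ w l
      else vv B k ξ w a := by
  have hm := mat_eq B k ξ w
  unfold vv
  rw [gseed_append]
  simp only [gstep]
  by_cases h : a = l
  · rw [if_pos h, if_pos h, Fintype.prod_sum_type, Fintype.prod_sum_type]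
    simp only [Sum.elim_inl, Sum.elim_inr, hm.1, hm.2]
  · rw [if_neg h, if_neg h]

/-- residues -/
def RG (B : Matrix (Fin n) (Fin n) ℤ) (w : List (Fin n)) (k : Fin n) (ξ : ℚ) (γ : ℤ) : Prop :=
  (∀ u, u <+: w → ∀ a, vv B k ξ u a ≠ 0) ∧
    ∀ a, IsRes (vv B k ξ w a) ((3 : ℚ) ^ (γ * (cst B w).G k a))

theorem RG.mk {B : Matrix (Fin n) (Fin n) ℤ} {w : List (Fin n)} {k : Fin n} {ξ : ℚ} {γ γ' : ℤ}
    {l : Fin n} (h : RG B w k ξ γ)
    (h1 : ∀ a, IsRes (vv B k ξ (w ++ [l]) a) ((3 : ℚ) ^ (γ' * (cst B (w ++ [l])).G k a))) :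
    RG B (w ++ [l]) k ξ γ' := by
  refine ⟨?_, h1⟩
  intro u hu a
  rcases (List.prefix_concat_iff.1 hu) with h2 | h2
  · rw [h2]
    exact (h1 a).ne_zero (zpow_ne_zero _ (by norm_num))
  · exact h.1 u h2 a

theorem prod_res {x : Fin n → KL} {r : Fin n → ℚ} (hx : ∀ i, IsRes (x i) (r i)) (k : Fin n)
    (c d : Fin n → ℕ) : IsRes ((∏ i, (x i) ^ c i) * ∏ m, (y0 k m) ^ d m)
      ((∏ i, (r i) ^ c i) * ∏ m, (if m = k then (2 : ℚ) else 0) ^ d m) := by
  refine (IsRes.prod _ fun i _ => (hx i).pow _).mul (IsRes.prod _ fun m _ => ?_)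
  by_cases h : m = k
  · simp only [y0, h, if_true]
    exact (IsRes.C 2).pow _
  · simp only [y0, h, if_false]
    exact IsRes.t.pow _

theorem prod_zpow3 (g : Fin n → ℤ) (γ : ℤ) (c : Fin n → ℕ) :
    ∏ i, ((3 : ℚ) ^ (γ * g i)) ^ c i = (3 : ℚ) ^ (γ * ∑ i, (c i : ℤ) * g i) := by
  rw [Finset.mul_sum]
  have : ∀ s : Finset (Fin n), ∏ i ∈ s, ((3 : ℚ) ^ (γ * g i)) ^ c i
      = (3 : ℚ) ^ (∑ i ∈ s, γ * ((c i : ℤ) * g i)) := by
    intro s
    induction s using Finset.induction_on with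
    | empty => simp
    | insert a s ha ih =>
      rw [Finset.prod_insert ha, Finset.sum_insert ha, ih, zpow_add₀ (by norm_num)]
      congr 1
      rw [← zpow_natCast, ← zpow_mul]
      congr 1
      ring
  exact this _

theorem G_append' {B : Matrix (Fin n) (Fin n) ℤ} (hB : TSSS B) {w : List (Fin n)} {l : Fin n}
    {ε : ℤ} (h : VS ε (cst B w).C l) (k a : Fin n) :
    (cst B (w ++ [l])).G k a = if a = l then -(cst B w).G k l
      + ∑ i, max (-ε * (cst B w).B i l) 0 * (cst B w).G k i else (cst B w).G k a := by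
  have hkk : (cst B w).B l l = 0 := by rw [cst_B]; exact hB.diag w l
  rw [cst_append, G_step h (duality1 hB.diag w) hkk, mul_Fc_apply _ _ _ _ hkk]

/-- the case in which one of the two monomials vanishes -/
theorem RG.stepA {B : Matrix (Fin n) (Fin n) ℤ} (hB : TSSS B) {w : List (Fin n)} {k : Fin n}
    {ξ : ℚ} {γ : ℤ} (h : RG B w k ξ γ) {l : Fin n} {ε : ℤ} (hε : VS ε (cst B w).C l)
    (hj : ∃ j, j ≠ k ∧ (cst B w).C j l ≠ 0) : RG B (w ++ [l]) k ξ γ := by
  refine h.mk fun a => ?_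
  rw [vv_append, G_append' hB hε]
  by_cases ha : a = l
  · rw [if_pos ha, if_pos ha]
    obtain ⟨j, hjk, hj0⟩ := hj
    obtain ⟨h1, h2⟩ := hε
    have hl0 : ((3 : ℚ) ^ (γ * (cst B w).G k l)) ≠ 0 := zpow_ne_zero _ (by norm_num)
    have hP := prod_res h.2 k (fun i => ((cst B w).B i l).toNat)
      (fun m => ((cst B w).C m l).toNat)
    have hQ := prod_res h.2 k (fun i => (-(cst B w).B i l).toNat)
      (fun m => (-(cst B w).C m l).toNat)
    have hPQ := (hP.add hQ).div (h.2 l) hl0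
    convert hPQ using 1
    rw [prod_zpow3, prod_zpow3, mul_add, zpow_add₀ (by norm_num), mul_neg, zpow_neg]
    rcases h1 with rfl | rfl
    · -- positive
      have z1 : ∏ m, (if m = k then (2 : ℚ) else 0) ^ ((cst B w).C m l).toNat = 0 := by
        apply Finset.prod_eq_zero (Finset.mem_univ j)
        rw [if_neg hjk]
        have := h2 j
        exact zero_pow (by omega)
      have z2 : ∏ m, (if m = k then (2 : ℚ) else 0) ^ (-(cst B w).C m l).toNat = 1 := by
        apply Finset.prod_eq_one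
        intro m _
        have := h2 m
        have e : (-(cst B w).C m l).toNat = 0 := by omega
        rw [e, pow_zero]
      rw [z1, z2, mul_zero, zero_add, mul_one, div_eq_mul_inv, mul_comm]
      congr 3
      refine Finset.sum_congr rfl fun i _ => ?_
      rw [Int.toNat_eq_max]
      congr 2
      ring
    · have z1 : ∏ m, (if m = k then (2 : ℚ) else 0) ^ (-(cst B w).C m l).toNat = 0 := by
        apply Finset.prod_eq_zero (Finset.mem_univ j)
        rw [if_neg hjk]
        have := h2 j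
        exact zero_pow (by omega)
      have z2 : ∏ m, (if m = k then (2 : ℚ) else 0) ^ ((cst B w).C m l).toNat = 1 := by
        apply Finset.prod_eq_one
        intro m _
        have := h2 m
        have e : ((cst B w).C m l).toNat = 0 := by omega
        rw [e, pow_zero]
      rw [z1, z2, mul_zero, add_zero, mul_one, div_eq_mul_inv, mul_comm]
      congr 3
      refine Finset.sum_congr rfl fun i _ => ?_
      rw [Int.toNat_eq_max]
      congr 2
      ring
  · rw [if_neg ha, if_neg ha]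
    exact h.2 a

/-- the case of a column `σ e_k` -/
theorem RG.stepB {B : Matrix (Fin n) (Fin n) ℤ} (hB : TSSS B) {w : List (Fin n)} {k : Fin n}
    {ξ : ℚ} {γ γ' : ℤ} (h : RG B w k ξ γ) {l : Fin n} {σ : ℤ} (hσ : σ = 1 ∨ σ = -1)
    (hC : ∀ j, (cst B w).C j l = if j = k then σ else 0)
    (hG : ∀ a, (cst B w).G k a = if a = l then σ else 0) (hγ : γ * σ + γ' * (-σ) = 1) :
    RG B (w ++ [l]) k ξ γ' := by
  have hε : VS σ (cst B w).C l := by
    refine ⟨hσ, fun j => ?_⟩
    rw [hC]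
    rcases hσ with rfl | rfl <;> split_ifs <;> norm_num
  have hll : (cst B w).B l l = 0 := by rw [cst_B]; exact hB.diag w l
  refine h.mk fun a => ?_
  rw [vv_append, G_append' hB hε]
  by_cases ha : a = l
  · rw [if_pos ha, if_pos ha]
    have hl0 : ((3 : ℚ) ^ (γ * (cst B w).G k l)) ≠ 0 := zpow_ne_zero _ (by norm_num)
    have hP := prod_res h.2 k (fun i => ((cst B w).B i l).toNat)
      (fun m => ((cst B w).C m l).toNat)
    have hQ := prod_res h.2 k (fun i => (-(cst B w).B i l).toNat)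
      (fun m => (-(cst B w).C m l).toNat)
    have hPQ := (hP.add hQ).div (h.2 l) hl0
    convert hPQ using 1
    rw [prod_zpow3, prod_zpow3]
    have s1 : ∑ i, (((cst B w).B i l).toNat : ℤ) * (cst B w).G k i = 0 := by
      apply Finset.sum_eq_zero
      intro i _
      rw [hG]
      by_cases hi : i = l
      · rw [hi, hll]
        simp
      · rw [if_neg hi, mul_zero]
    have s2 : ∑ i, ((-(cst B w).B i l).toNat : ℤ) * (cst B w).G k i = 0 := by
      apply Finset.sum_eq_zero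
      intro i _
      rw [hG]
      by_cases hi : i = l
      · rw [hi, hll]
        simp
      · rw [if_neg hi, mul_zero]
    have s3 : ∑ i, max (-σ * (cst B w).B i l) 0 * (cst B w).G k i = 0 := by
      apply Finset.sum_eq_zero
      intro i _
      rw [hG]
      by_cases hi : i = l
      · rw [hi, hll]
        simp
      · rw [if_neg hi, mul_zero]
    rw [s1, s2, s3, mul_zero, zpow_zero, one_mul, one_mul, add_zero, hG, if_pos rfl]
    have hprod : ∀ τ : ℤ, ∏ m, (if m = k then (2 : ℚ) else 0) ^ (if m = k then τ else 0).toNat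
        = (2 : ℚ) ^ τ.toNat := by
      intro τ
      rw [Finset.prod_eq_single k]
      · rw [if_pos rfl, if_pos rfl]
      · intro b _ hb
        rw [if_neg hb, if_neg hb]
        simp
      · intro h4
        exact absurd (Finset.mem_univ k) h4
    have p1 : ∏ m, (if m = k then (2 : ℚ) else 0) ^ ((cst B w).C m l).toNat
        = (2 : ℚ) ^ σ.toNat := by
      rw [← hprod]
      exact Finset.prod_congr rfl fun m _ => by rw [hC]
    have p2 : ∏ m, (if m = k then (2 : ℚ) else 0) ^ (-(cst B w).C m l).toNat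
        = (2 : ℚ) ^ (-σ).toNat := by
      rw [← hprod]
      refine Finset.prod_congr rfl fun m _ => ?_
      rw [hC]
      by_cases hm : m = k
      · simp only [hm, if_true]
      · simp only [hm, if_false, neg_zero]
    rw [p1, p2]
    have h3 : (2 : ℚ) ^ σ.toNat + (2 : ℚ) ^ (-σ).toNat = 3 := by
      have e : (-1 : ℤ).toNat = 0 := rfl
      rcases hσ with rfl | rfl <;> norm_num [e]
    rw [h3, eq_div_iff (zpow_ne_zero _ (by norm_num)), ← zpow_add₀ (by norm_num)]
    have h4 : γ' * -σ + γ * σ = 1 := by linarith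
    rw [h4, zpow_one]
  · rw [if_neg ha, if_neg ha]
    have h5 := h.2 a
    rw [hG, if_neg ha, mul_zero, zpow_zero] at h5 ⊢
    exact h5

/-- The invariant: the residues of all variables at the two evaluations. -/
def Res (B : Matrix (Fin n) (Fin n) ℤ) (w : List (Fin n)) (k : Fin n) (σ : ℤ) : Prop :=
  (σ = 1 ∧ RG B w k 1 0 ∧ RG B w k 3 1) ∨ (σ = -1 ∧ RG B w k 1 (-1) ∧ RG B w k 3 0)

theorem zero (B : Matrix (Fin n) (Fin n) ℤ) (k : Fin n) : Res B [] k 1 := by
  have key : ∀ (ξ : ℚ) (γ : ℤ), ξ ≠ 0 → (3 : ℚ) ^ γ = ξ → RG B [] k ξ γ := by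
    intro ξ γ hξ h3
    have h1 : ∀ a, IsRes (vv B k ξ [] a) ((3 : ℚ) ^ (γ * (cst B []).G k a)) := by
      intro a
      have e1 : vv B k ξ [] a = x0 k ξ a := rfl
      have e2 : (cst B []).G k a = (1 : Matrix (Fin n) (Fin n) ℤ) k a := rfl
      rw [e1, e2, Matrix.one_apply]
      by_cases h : k = a
      · rw [if_pos h, mul_one, h3, x0, if_pos h.symm]
        exact IsRes.C ξ
      · rw [if_neg h, mul_zero, zpow_zero, x0, if_neg (fun h' => h h'.symm)]
        exact IsRes.one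
    refine ⟨?_, h1⟩
    intro u hu a
    rw [List.prefix_nil.1 hu]
    exact (h1 a).ne_zero (zpow_ne_zero _ (by norm_num))
  exact Or.inl ⟨rfl, key 1 0 one_ne_zero (by norm_num), key 3 1 (by norm_num) (by norm_num)⟩

theorem stepA {B : Matrix (Fin n) (Fin n) ℤ} (hB : TSSS B) {w : List (Fin n)} {k l : Fin n}
    {σ ε : ℤ} (h : Res B w k σ) (hε : VS ε (cst B w).C l)
    (hj : ∃ j, j ≠ k ∧ (cst B w).C j l ≠ 0) : Res B (w ++ [l]) k σ := by
  rcases h with ⟨h1, h2, h3⟩ | ⟨h1, h2, h3⟩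
  · exact Or.inl ⟨h1, h2.stepA hB hε hj, h3.stepA hB hε hj⟩
  · exact Or.inr ⟨h1, h2.stepA hB hε hj, h3.stepA hB hε hj⟩

theorem stepB {B : Matrix (Fin n) (Fin n) ℤ} (hB : TSSS B) {w : List (Fin n)} {k l : Fin n}
    {σ : ℤ} (h : Res B w k σ) (hC : ∀ j, (cst B w).C j l = if j = k then σ else 0)
    (hG : ∀ a, (cst B w).G k a = if a = l then σ else 0) : Res B (w ++ [l]) k (-σ) := by
  rcases h with ⟨rfl, h2, h3⟩ | ⟨rfl, h2, h3⟩
  · exact Or.inr ⟨rfl, h2.stepB hB (Or.inl rfl) hC hG (by norm_num),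
      h3.stepB hB (Or.inl rfl) hC hG (by norm_num)⟩
  · exact Or.inl ⟨by norm_num, h2.stepB hB (Or.inr rfl) hC hG (by norm_num),
      h3.stepB hB (Or.inr rfl) hC hG (by norm_num)⟩

theorem Res.cases {B : Matrix (Fin n) (Fin n) ℤ} {w : List (Fin n)} {k : Fin n}
    {σ : ℤ} (h : Res B w k σ) : σ = 1 ∨ σ = -1 := by
  rcases h with ⟨h, -, -⟩ | ⟨h, -, -⟩
  · exact Or.inl h
  · exact Or.inr h

theorem x0_ne (k : Fin n) {ξ : ℚ} (hξ : ξ ≠ 0) (a : Fin n) : x0 k ξ a ≠ 0 := by
  unfold x0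
  split_ifs
  · exact (IsRes.C ξ).ne_zero hξ
  · exact one_ne_zero

theorem single_inv (m : ℤ) {r : ℚ} (hr : r ≠ 0) :
    (HahnSeries.single m r : KL)⁻¹ = HahnSeries.single (-m) r⁻¹ := by
  apply inv_eq_of_mul_eq_one_right
  rw [HahnSeries.single_mul_single, add_neg_cancel, mul_inv_cancel₀ hr]
  rfl

theorem y0_mem (k m : Fin n) : y0 k m ≠ 0 ∧ y0 k m ∈ RR ∧ (y0 k m)⁻¹ ∈ RR := by
  have h2 : ((2 : ℚ))⁻¹ ∈ A3 := by
    have := mem_A3_nat (m := 2) (by norm_num)
    exact_mod_cast this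
  have h2' : (2 : ℚ) ∈ A3 := by
    have := natCast_mem A3 2
    exact_mod_cast this
  unfold y0
  split_ifs
  · refine ⟨(IsRes.C 2).ne_zero (by norm_num), single_mem_RR 0 h2', ?_⟩
    have : (HahnSeries.C (2 : ℚ) : KL)⁻¹ = HahnSeries.single (-0) (2 : ℚ)⁻¹ :=
      single_inv 0 (by norm_num)
    rw [this]
    exact single_mem_RR _ h2
  · refine ⟨?_, single_mem_RR 1 A3.one_mem, ?_⟩
    · intro h0
      have := congrArg (fun f : KL => f.coeff 1) h0
      simp at this
    · rw [single_inv 1 one_ne_zero, inv_one]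
      exact single_mem_RR _ A3.one_mem

/-- the Laurent phenomenon at the initial seed -/
theorem laurent1 (hL : StLau.{0}) {B : Matrix (Fin n) (Fin n) ℤ} (hB : TSSS B)
    {w : List (Fin n)} {k : Fin n} {γ : ℤ} (h : RG B w k 1 γ) (a : Fin n) :
    0 ≤ γ * (cst B w).G k a := by
  have h1 := hL n (ext B) (good_ext hB) KL (x0 k 1) (y0 k) (x0_ne k one_ne_zero)
    (fun m => (y0_mem k m).1) w (fun u hu _ a => h.1 u hu a) RR (by
      intro b
      have e : x0 k 1 b = 1 := by
        unfold x0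
        split_ifs
        · rfl
        · rfl
      rw [e, inv_one]
      exact ⟨RR.one_mem, RR.one_mem, (y0_mem k b).2.1, (y0_mem k b).2.2⟩) a
  have h2 := h1 0
  have h3 : ((gseed (y0 k) (x0 k 1, ext B) w).1 a).coeff 0 = _ := (h.2 a).coeff
  rw [h3] at h2
  exact three_zpow h2

/-- the Laurent phenomenon at the neighbour seed -/
theorem laurent3 (hL : StLauNb.{0}) {B : Matrix (Fin n) (Fin n) ℤ} (hB : TSSS B)
    {w : List (Fin n)} {k : Fin n} {γ : ℤ} (h : RG B w k 3 γ) (a : Fin n) :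
    0 ≤ γ * (cst B w).G k a := by
  have hkk : B k k = 0 := hB.diag [] k
  have e1 : ∀ b, (gstep (y0 k) (x0 k 3, ext B) k).1 b = 1 := by
    intro b
    have hv := vv_append B k 3 [] k b
    have hv1 : vv B k 3 ([] ++ [k]) b = (gstep (y0 k) (x0 k 3, ext B) k).1 b := rfl
    rw [hv1] at hv
    rw [hv]
    have hv2 : ∀ i, vv B k 3 [] i = x0 k 3 i := fun i => rfl
    simp only [hv2]
    have hB0 : (cst B []).B = B := rfl
    have hC0 : (cst B []).C = 1 := rfl
    rw [hB0, hC0]
    by_cases hb : b = k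
    · rw [if_pos hb]
      have p1 : ∏ i, (x0 k 3 i) ^ (B i k).toNat = 1 := by
        apply Finset.prod_eq_one
        intro i _
        by_cases hi : i = k
        · rw [hi, hkk]
          simp
        · rw [x0, if_neg hi, one_pow]
      have p2 : ∏ i, (x0 k 3 i) ^ (-B i k).toNat = 1 := by
        apply Finset.prod_eq_one
        intro i _
        by_cases hi : i = k
        · rw [hi, hkk]
          simp
        · rw [x0, if_neg hi, one_pow]
      have p3 : ∏ m, (y0 k m) ^ ((1 : Matrix (Fin n) (Fin n) ℤ) m k).toNat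
          = HahnSeries.C 2 := by
        rw [Finset.prod_eq_single k]
        · rw [Matrix.one_apply_eq, y0, if_pos rfl]
          simp
        · intro b _ hb
          rw [Matrix.one_apply_ne hb]
          simp
        · intro h4
          exact absurd (Finset.mem_univ k) h4
      have p4 : ∏ m, (y0 k m) ^ (-(1 : Matrix (Fin n) (Fin n) ℤ) m k).toNat = 1 := by
        apply Finset.prod_eq_one
        intro m _
        by_cases hm : m = k
        · rw [hm, Matrix.one_apply_eq]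
          simp
        · rw [Matrix.one_apply_ne hm]
          simp
      rw [p1, p2, p3, p4, x0, if_pos rfl, one_mul, one_mul]
      have h3 : (HahnSeries.C (2 : ℚ) : KL) + 1 = HahnSeries.C 3 := by
        rw [← map_one (HahnSeries.C (Γ := ℤ) (R := ℚ)), ← map_add]
        norm_num
      rw [h3]
      exact div_self ((IsRes.C 3).ne_zero (by norm_num))
    · rw [if_neg hb, x0, if_neg hb]
  have h1 := hL n (ext B) (good_ext hB) KL (x0 k 3) (y0 k) (x0_ne k (by norm_num))
    (fun m => (y0_mem k m).1) k (by rw [e1]; exact one_ne_zero) w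
    (fun u hu _ a => h.1 u hu a) RR (by
      intro b
      rw [e1, inv_one]
      exact ⟨RR.one_mem, RR.one_mem, (y0_mem k b).2.1, (y0_mem k b).2.2⟩) a
  have h2 := h1 0
  have h3 : ((gseed (y0 k) (x0 k 3, ext B) w).1 a).coeff 0 = _ := (h.2 a).coeff
  rw [h3] at h2
  exact three_zpow h2

/-- Module X: row `k` of `G` is sign-coherent. -/
theorem sign (hL : StLau.{0}) (hN : StLauNb.{0}) {B : Matrix (Fin n) (Fin n) ℤ} (hB : TSSS B)
    {w : List (Fin n)} {k : Fin n} {σ : ℤ} (h : Res B w k σ) (a : Fin n) :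
    0 ≤ σ * (cst B w).G k a := by
  rcases h with ⟨rfl, -, h3⟩ | ⟨rfl, h2, -⟩
  · exact laurent3 hN hB h3 a
  · exact laurent1 hL hB h2 a

end Pool.Agent.Lib.MP_51fc07_al.GV.Axis9
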