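import Pool.Agent.Lib.MP_51fc07_al.Dual

/-!
The integer part of the change of the initial seed for totally sign-skew-symmetric matrices:
everything follows from an abstract predicate describing the values on the coordinate axes.
-/

set_option autoImplicit false

namespace Pool.Agent.Lib.MP_51fc07_al.GV.Int49

open Pool.Agent.Lib.MP_51fc07_al

variable {n : ℕ}

/-- The abstract properties of the values on the axes. `Res B w k σ` means: the variables at the
end of the path `w` have the expected residues on the `k`-th axis, in the state `σ = 1` or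
`σ = -1`. -/
structure Axis49 (Res : Matrix (Fin n) (Fin n) ℤ → List (Fin n) → Fin n → ℤ → Prop) : Prop where
  zero : ∀ B, TSSS B → ∀ k, Res B [] k 1
  stepA : ∀ B, TSSS B → ∀ (w : List (Fin n)) (k l : Fin n) (σ ε : ℤ), Res B w k σ →
    VS ε (cst B w).C l → (∃ j, j ≠ k ∧ (cst B w).C j l ≠ 0) → Res B (w ++ [l]) k σ
  stepB : ∀ B, TSSS B → ∀ (w : List (Fin n)) (k l : Fin n) (σ : ℤ), Res B w k σ →
    (σ = 1 ∨ σ = -1) → (∀ j, (cst B w).C j l = if j = k then σ else 0) →
    (∀ a, (cst B w).G k a = if a = l then σ else 0) → Res B (w ++ [l]) k (-σ)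
  sign : ∀ B, TSSS B → ∀ (w : List (Fin n)) (k : Fin n) (σ : ℤ), Res B w k σ →
    ∀ a, 0 ≤ σ * (cst B w).G k a

variable {Res : Matrix (Fin n) (Fin n) ℤ → List (Fin n) → Fin n → ℤ → Prop}

/-- P1 and P2 up to length `d` -/
def P12 (n d : ℕ) : Prop :=
  ∀ B : Matrix (Fin n) (Fin n) ℤ, TSSS B → ∀ w : List (Fin n), w.length ≤ d → ∀ l,
    ∃ ε : ℤ, VS ε (cst B w).C l ∧ VS ε (cst (-B.transpose) w).C l

/-- P3 up to length `d` -/
def P3 (n d : ℕ) : Prop :=
  ∀ B : Matrix (Fin n) (Fin n) ℤ, TSSS B → ∀ w : List (Fin n), w.length ≤ d → ∀ l k,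
    (∀ j, j ≠ k → (cst B w).C j l = 0) → ∀ j, j ≠ k → (cst (-B.transpose) w).C j l = 0

theorem nt_nt (B : Matrix (Fin n) (Fin n) ℤ) : -(-B.transpose).transpose = B := by
  rw [Matrix.transpose_neg, Matrix.transpose_transpose, neg_neg]

theorem G_app {B : Matrix (Fin n) (Fin n) ℤ} (hB : TSSS B) {w : List (Fin n)} {k : Fin n} {ε : ℤ}
    (h : VS ε (cst B w).C k) : (cst B (w ++ [k])).G = (cst B w).G * Fc k ε (muw B w) := by
  rw [cst_append, ← cst_B]
  exact G_step h (duality1 hB.diag w) (by rw [cst_B]; exact hB.diag w k)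

/-- Lemma 1 -/
theorem dualD {d : ℕ} (h12 : P12 n d) {B : Matrix (Fin n) (Fin n) ℤ} (hB : TSSS B)
    (w : List (Fin n)) : w.length ≤ d + 1 →
    (cst (-B.transpose) w).C * (cst B w).G.transpose = 1 := by
  induction w using List.reverseRecOn with
  | nil => intro _; simp [cst, cinit]
  | append_singleton w k ih =>
    intro hw
    have hw' : w.length ≤ d := by simpa using hw
    obtain ⟨ε, h1, h2⟩ := h12 B hB w hw' k
    rw [G_app hB h1, C_append h2, Matrix.transpose_mul]
    have e : (Fc k ε (muw B w)).transpose = Er k ε (muw (-B.transpose) w) := by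
      unfold Fc
      rw [Matrix.transpose_transpose, muw_neg, muw_transpose]
    rw [e, Matrix.mul_assoc, ← Matrix.mul_assoc (Er k ε _) (Er k ε _), Er_mul_Er, Matrix.one_mul]
    exact ih (by omega)

theorem dualD' {d : ℕ} (h12 : P12 n d) {B : Matrix (Fin n) (Fin n) ℤ} (hB : TSSS B)
    (w : List (Fin n)) (hw : w.length ≤ d + 1) :
    (cst B w).C * (cst (-B.transpose) w).G.transpose = 1 := by
  have := dualD h12 (hB.transpose.neg) w hw
  rwa [nt_nt] at this

theorem mul_one_cases {a b : ℤ} (h : a * b = 1) : (a = 1 ∧ b = 1) ∨ (a = -1 ∧ b = -1) := by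
  rcases Int.eq_one_or_neg_one_of_mul_eq_one h with h1 | h1
  · left; refine ⟨h1, ?_⟩; rw [h1] at h; linarith
  · right; refine ⟨h1, ?_⟩; rw [h1] at h; linarith

/-- the dual pairing when a column is supported on `{k}` -/
theorem pair_col {X Y : Matrix (Fin n) (Fin n) ℤ} (h : X * Y.transpose = 1) {k l : Fin n}
    (hX : ∀ j, j ≠ k → X j l = 0) : (∀ a, Y k a * X k l = if a = l then 1 else 0) := by
  intro a
  have h1 : Y.transpose * X = 1 := mul_eq_one_comm.mp h
  have h2 := congrFun (congrFun h1 a) l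
  rw [Matrix.mul_apply, Finset.sum_eq_single k] at h2
  · rw [Matrix.transpose_apply] at h2
    rw [h2, Matrix.one_apply]
  · intro j _ hj
    rw [hX j hj, mul_zero]
  · intro h3
    exact absurd (Finset.mem_univ _) h3

/-- what happens when a `c`-vector is supported on `{k}` -/
theorem caseB (hX : Axis49 Res) {d : ℕ} (h12 : P12 n d) (h3 : P3 n d)
    {B : Matrix (Fin n) (Fin n) ℤ} (hB : TSSS B) {w : List (Fin n)} (hw : w.length ≤ d)
    {k l : Fin n} {σ : ℤ} (hσ : σ = 1 ∨ σ = -1) (hR : Res B w k σ)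
    (hc : ∀ j, j ≠ k → (cst B w).C j l = 0) :
    (∀ j, (cst B w).C j l = if j = k then σ else 0) ∧
      (∀ a, (cst B w).G k a = if a = l then σ else 0) := by
  obtain ⟨ε, h1, h2⟩ := h12 B hB w hw l
  have d1 := dualD h12 hB w (by omega)
  have d2 := dualD' h12 hB w (by omega)
  have hc' := h3 B hB w hw l k hc
  have e1 := pair_col d1 hc'
  have e2 := pair_col d2 hc
  have f1 := e1 l
  have f2 := e2 l
  rw [if_pos rfl] at f1 f2
  have g1 := h1.2 k
  have g2 := h2.2 k
  have s1 := hX.sign B hB w k σ hR l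
  have key : (cst B w).C k l = σ ∧ (cst B w).G k l = σ ∧ (cst (-B.transpose) w).C k l = σ := by
    rcases mul_one_cases f1 with ⟨a1, a2⟩ | ⟨a1, a2⟩ <;>
      rcases mul_one_cases f2 with ⟨b1, b2⟩ | ⟨b1, b2⟩ <;>
      rcases h1.1 with rfl | rfl <;> rcases hσ with rfl | rfl <;>
      rw [a2] at g2 <;> rw [b2] at g1 <;> rw [a1] at s1 <;>
      first
        | exact ⟨b2, a1, a2⟩
        | (exfalso; linarith)
  refine ⟨fun j => ?_, fun a => ?_⟩
  · by_cases hj : j = k
    · rw [if_pos hj, hj]; exact key.1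
    · rw [if_neg hj]; exact hc j hj
  · by_cases ha : a = l
    · rw [if_pos ha, ha]; exact key.2.1
    · rw [if_neg ha]
      have := e1 a
      rw [if_neg ha, key.2.2] at this
      rcases mul_eq_zero.1 this with h | h
      · exact h
      · rcases hσ with rfl | rfl <;> omega

/-- Lemmas 2 and 3: the states -/
theorem state49 (hX : Axis49 Res) {d : ℕ} (h12 : P12 n d) (h3 : P3 n d)
    {B : Matrix (Fin n) (Fin n) ℤ} (hB : TSSS B) (k : Fin n) (w : List (Fin n)) :
    w.length ≤ d + 1 → ∃ σ : ℤ, (σ = 1 ∨ σ = -1) ∧ Res B w k σ ∧ Res (-B.transpose) w k σ := by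
  induction w using List.reverseRecOn with
  | nil =>
    intro _
    exact ⟨1, Or.inl rfl, hX.zero B hB k, hX.zero _ hB.transpose.neg k⟩
  | append_singleton w l ih =>
    intro hw
    have hw' : w.length ≤ d := by simpa using hw
    obtain ⟨σ, hσ, hR, hR'⟩ := ih (by omega)
    have hB' := hB.transpose.neg
    obtain ⟨ε, v1, v2⟩ := h12 B hB w hw' l
    by_cases hc : ∀ j, j ≠ k → (cst B w).C j l = 0
    · have hc' := h3 B hB w hw' l k hc
      have c1 := caseB hX h12 h3 hB hw' hσ hR hc
      have c2 := caseB hX h12 h3 hB' hw' hσ hR' hc'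
      refine ⟨-σ, ?_, hX.stepB B hB w k l σ hR hσ c1.1 c1.2, hX.stepB _ hB' w k l σ hR' hσ c2.1 c2.2⟩
      rcases hσ with rfl | rfl
      · right; rfl
      · left; rfl
    · have hc' : ¬ ∀ j, j ≠ k → (cst (-B.transpose) w).C j l = 0 := by
        intro h
        apply hc
        have := h3 _ hB' w hw' l k h
        rwa [nt_nt] at this
      push Not at hc hc'
      exact ⟨σ, hσ, hX.stepA B hB w k l σ ε hR v1 hc, hX.stepA _ hB' w k l σ ε hR' v2 hc'⟩

/-- row `k` of a product with `Er` on the left -/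
theorem Er_mul_row (k : Fin n) (ε : ℤ) (B M : Matrix (Fin n) (Fin n) ℤ) (hB : B k k = 0)
    (l : Fin n) : (Er k ε B * M) k l = -M k l + ∑ a, max (ε * B k a) 0 * M a l := by
  rw [Matrix.mul_apply]
  have e : ∀ a, Er k ε B k a * M a l =
      (if a = k then -M k l else 0) + max (ε * B k a) 0 * M a l := by
    intro a
    simp only [Er, Matrix.of_apply, if_true]
    by_cases h : a = k
    · subst h; simp [hB]
    · simp [h]
  rw [Finset.sum_congr rfl (fun a _ => e a), Finset.sum_add_distrib]
  simp

theorem Er_comp (k : Fin n) (σ : ℤ) (B M : Matrix (Fin n) (Fin n) ℤ)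
    (hB : B k k = 0) (i l : Fin n) : (Er k σ B * (Er k (-σ) B * M)) i l =
      if i = k then M k l + σ * (B * M) k l else M i l := by
  by_cases hi : i = k
  · subst hi
    rw [if_pos rfl, Er_mul_row _ _ _ _ hB, Er_mul_row _ _ _ _ hB]
    have e1 : ∑ a, max (σ * B i a) 0 * (Er i (-σ) B * M) a l =
        ∑ a, max (σ * B i a) 0 * M a l := by
      refine Finset.sum_congr rfl fun a _ => ?_
      by_cases ha : a = i
      · subst ha; rw [hB]; simp
      · rw [Er_mul_apply _ _ _ _ _ _ ha]
    rw [e1, Matrix.mul_apply, Finset.mul_sum]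
    have e2 : ∑ a, max (σ * B i a) 0 * M a l - ∑ a, max (-σ * B i a) 0 * M a l =
        ∑ a, σ * (B i a * M a l) := by
      rw [← Finset.sum_sub_distrib]
      refine Finset.sum_congr rfl fun a _ => ?_
      have := max_sub_max (σ * B i a)
      have h7 : max (-σ * B i a) 0 = max (σ * B i a) 0 - σ * B i a := by
        rw [neg_mul]; linarith
      rw [h7]; ring
    linarith
  · rw [if_neg hi, Er_mul_apply _ _ _ _ _ _ hi, Er_mul_apply _ _ _ _ _ _ hi]

theorem mul_Er_comp (l : Fin n) (σ : ℤ) (M N : Matrix (Fin n) (Fin n) ℤ)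
    (hM : M l l = 0) (i j : Fin n) : ((N * Er l σ M) * Er l (-σ) M) i j =
      N i j + σ * (N i l * M l j) := by
  rw [mul_Er_apply, mul_Er_apply, mul_Er_apply]
  by_cases hj : j = l
  · subst hj
    rw [if_pos rfl, if_pos rfl, hM]; ring
  · rw [if_neg hj, if_neg hj, if_pos rfl]
    have := max_sub_max (σ * M l j)
    have h7 : max (-σ * M l j) 0 = max (σ * M l j) 0 - σ * M l j := by
      rw [neg_mul]; linarith
    rw [h7]; ring

theorem C_caseB {B M C G : Matrix (Fin n) (Fin n) ℤ} {k l : Fin n} {σ : ℤ}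
    (hB : B k k = 0) (hM : M l l = 0) (hd : G * M = B * C)
    (hc : ∀ j, C j l = if j = k then σ else 0) (hg : ∀ a, G k a = if a = l then σ else 0) :
    (Er k (-σ) B * C) * Er l (-σ) M = Er k (-(-σ)) B * (C * Er l σ M) := by
  have h1 : Er k σ B * (Er k (-σ) B * C) = (C * Er l σ M) * Er l (-σ) M := by
    ext i j
    rw [Er_comp k σ B C hB, mul_Er_comp l σ M C hM, hc]
    by_cases hi : i = k
    · subst hi
      rw [if_pos rfl, if_pos rfl]
      have h2 : (B * C) i j = σ * M l j := by
        rw [← hd, Matrix.mul_apply, Finset.sum_eq_single l]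
        · rw [hg, if_pos rfl]
        · intro a _ ha
          rw [hg, if_neg ha, zero_mul]
        · intro h; exact absurd (Finset.mem_univ _) h
      rw [h2]
    · rw [if_neg hi, if_neg hi]; ring
  rw [neg_neg]
  have h2 : Er k (-σ) B * C = Er k σ B * ((C * Er l σ M) * Er l (-σ) M) := by
    rw [← h1, ← Matrix.mul_assoc (Er k σ B) (Er k σ B), Er_mul_Er, Matrix.one_mul]
  rw [h2, Matrix.mul_assoc (Er k σ B), Matrix.mul_assoc (C * Er l σ M), Er_mul_Er, Matrix.mul_one]

theorem Fc_eq (l : Fin n) (σ : ℤ) (M : Matrix (Fin n) (Fin n) ℤ) :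
    Fc l σ M = (Er l (-σ) M.transpose).transpose := by
  unfold Fc
  congr 1
  ext i j
  simp only [Er, Matrix.of_apply, Matrix.neg_apply, Matrix.transpose_apply, neg_mul, mul_neg]

theorem G_caseB {B M C G : Matrix (Fin n) (Fin n) ℤ} {k l : Fin n} {σ : ℤ}
    (hB : B k k = 0) (hM : M l l = 0) (hd : G * M = B * C)
    (hc : ∀ j, C j l = if j = k then σ else 0) (hg : ∀ a, G k a = if a = l then σ else 0) :
    ((Er k σ B.transpose).transpose * G) * Fc l (-σ) M =
      (Er k (-σ) B.transpose).transpose * (G * Fc l σ M) := by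
  have h := C_caseB (B := M.transpose) (M := B.transpose) (C := G.transpose) (G := C.transpose)
    (k := l) (l := k) (by rw [Matrix.transpose_apply]; exact hM)
    (by rw [Matrix.transpose_apply]; exact hB)
    (by rw [← Matrix.transpose_mul, ← Matrix.transpose_mul, hd])
    (by intro j; rw [Matrix.transpose_apply]; exact hg j)
    (by intro a; rw [Matrix.transpose_apply]; exact hc a)
  rw [Fc_eq, Fc_eq, neg_neg]
  have h2 := congrArg Matrix.transpose h
  simp only [Matrix.transpose_mul, Matrix.transpose_transpose, neg_neg] at h2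
  rw [Matrix.mul_assoc, h2, Matrix.mul_assoc]

/-- Lemma 4 -/
theorem base49 (hX : Axis49 Res) {d : ℕ} (h12 : P12 n d) (h3 : P3 n d)
    {B : Matrix (Fin n) (Fin n) ℤ} (hB : TSSS B) (k : Fin n) (w : List (Fin n)) :
    w.length ≤ d → ∃ σ : ℤ, (σ = 1 ∨ σ = -1) ∧ Res B w k σ ∧
      (cst (mu k B) (k :: w)).C = Er k (-σ) B * (cst B w).C ∧
      (cst (mu k B) (k :: w)).G = (Er k σ B.transpose).transpose * (cst B w).G := by
  have hkk : B k k = 0 := by simpa [muw] using hB.diag [] k
  have hB' : TSSS (mu k B) := hB.mu k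
  induction w using List.reverseRecOn with
  | nil =>
    intro _
    refine ⟨1, Or.inl rfl, hX.zero B hB k, ?_, ?_⟩
    · have v : VS 1 (cst (mu k B) []).C k := by
        refine ⟨Or.inl rfl, fun j => ?_⟩
        simp only [cst, cinit, List.foldl_nil, Matrix.one_apply]
        split_ifs <;> norm_num
      have := C_append v
      rw [List.nil_append] at this
      rw [this]
      simp only [cst, cinit, List.foldl_nil, Matrix.one_mul, Matrix.mul_one, muw]
      ext i j
      simp only [Er, Matrix.of_apply, mu, true_or, if_true, one_mul, neg_mul]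
    · have v : VS 1 (cst (mu k B) []).C k := by
        refine ⟨Or.inl rfl, fun j => ?_⟩
        simp only [cst, cinit, List.foldl_nil, Matrix.one_apply]
        split_ifs <;> norm_num
      have := G_app hB' v
      rw [List.nil_append] at this
      rw [this, Fc_eq]
      simp only [cst, cinit, List.foldl_nil, Matrix.one_mul, Matrix.mul_one, muw]
      congr 1
      ext i j
      simp only [Er, Matrix.of_apply, mu, Matrix.transpose_apply, or_true, if_true, one_mul,
        neg_mul, mul_neg, neg_neg]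
  | append_singleton w l ih =>
    intro hw
    have hw' : w.length + 1 ≤ d := by simpa using hw
    obtain ⟨σ, hσ, hR, hC, hG⟩ := ih (by omega)
    obtain ⟨ε, v1, -⟩ := h12 B hB w (by omega) l
    obtain ⟨ε', v1', -⟩ := h12 (mu k B) hB' (k :: w) (by simp; omega) l
    have eM : muw (mu k B) (k :: w) = muw B w := by
      rw [muw_cons, mu_mu]
    have hM : muw B w l l = 0 := hB.diag w l
    have hd : (cst B w).G * muw B w = B * (cst B w).C := by
      have := duality1 hB.diag w
      rwa [cst_B] at this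
    by_cases hc : ∀ j, j ≠ k → (cst B w).C j l = 0
    · have cb := caseB hX h12 h3 hB (by omega) hσ hR hc
      -- the c-vector at the other side is `-σ e_k`
      have hε : ε = σ := by
        refine v1.eq_of_one (j := k) (by rw [cb.1, if_pos rfl]) hσ
      have hck : (cst (mu k B) (k :: w)).C k l = -σ := by
        rw [hC, Er_mul_row _ _ _ _ hkk, cb.1, if_pos rfl]
        rw [Finset.sum_eq_zero, add_zero]
        intro a _
        rw [cb.1]
        by_cases ha : a = k
        · subst ha; rw [hkk]; simp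
        · rw [if_neg ha, mul_zero]
      have hε' : ε' = -σ := by
        refine v1'.eq_of_one (j := k) hck ?_
        rcases hσ with rfl | rfl
        · right; rfl
        · left; rfl
      subst hε
      subst hε'
      refine ⟨-ε, ?_, hX.stepB B hB w k l ε hR hσ cb.1 cb.2, ?_, ?_⟩
      · rcases hσ with rfl | rfl
        · right; rfl
        · left; rfl
      · rw [← List.cons_append, C_append v1', C_append v1, eM, hC]
        exact C_caseB hkk hM hd cb.1 cb.2
      · rw [← List.cons_append, G_app hB' v1', G_app hB v1, eM, hG]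
        exact G_caseB hkk hM hd cb.1 cb.2
    · push Not at hc
      obtain ⟨j, hj, hj'⟩ := hc
      have hε : ε' = ε := by
        have a1 := v1'.2 j
        have a2 := v1.2 j
        rw [hC, Er_mul_apply _ _ _ _ _ _ hj] at a1
        rcases v1'.1 with rfl | rfl <;> rcases v1.1 with rfl | rfl
        · rfl
        · exfalso; apply hj'; linarith
        · exfalso; apply hj'; linarith
        · rfl
      subst hε
      refine ⟨σ, hσ, hX.stepA B hB w k l σ ε' hR v1 ⟨j, hj, hj'⟩, ?_, ?_⟩
      · rw [← List.cons_append, C_append v1', C_append v1, eM, hC, Matrix.mul_assoc]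
      · rw [← List.cons_append, G_app hB' v1', G_app hB v1, eM, hG, Matrix.mul_assoc]

/-- a sign of a row of `G` is a sign of a column of its transpose -/
theorem vs_of_sign (hX : Axis49 Res) {B : Matrix (Fin n) (Fin n) ℤ} (hB : TSSS B)
    {w : List (Fin n)} {k : Fin n} {σ : ℤ} (hσ : σ = 1 ∨ σ = -1) (hR : Res B w k σ) :
    VS σ (cst B w).G.transpose k :=
  ⟨hσ, fun a => hX.sign B hB w k σ hR a⟩

/-- Lemma 5 -/
theorem T3_49 (hX : Axis49 Res) {d : ℕ} (h12 : P12 n d) (h3 : P3 n d) (w : List (Fin n)) :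
    w.length ≤ d + 1 → ∀ B : Matrix (Fin n) (Fin n) ℤ, TSSS B → T3 B w := by
  induction w with
  | nil => intro _ B _; simp [T3, cst, cinit]
  | cons k v ih =>
    intro hw B hB
    have hv : v.length ≤ d := by simpa using hw
    have hB' : TSSS (mu k B) := hB.mu k
    obtain ⟨σ, hσ, hR, -, hG⟩ := base49 hX h12 h3 hB' k v hv
    rw [mu_mu] at hG
    have h4 := ih (by omega) (mu k B) hB'
    unfold T3 at h4 ⊢
    have vs := vs_of_sign hX hB' hσ hR
    rw [h4] at vs
    have e1 : muw B (k :: v) = muw (mu k B) v := rfl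
    have e2 : muw (muw (mu k B) v).transpose v.reverse = (mu k B).transpose := by
      rw [muw_transpose, muw_reverse]
    rw [e1, List.reverse_cons, C_append vs, e2, ← h4, hG, Matrix.transpose_mul,
      Matrix.transpose_transpose]

/-- Lemma 6 -/
theorem P12_succ (hX : Axis49 Res) {d : ℕ} (h12 : P12 n d) (h3 : P3 n d) : P12 n (d + 1) := by
  intro B hB w hw l
  have hA : TSSS (muw B w).transpose := by
    have : TSSS (muw B w) := by
      intro v
      rw [← muw_append]
      exact hB (w ++ v)
    exact this.transpose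
  have hr : w.reverse.length ≤ d + 1 := by simpa using hw
  obtain ⟨σ, hσ, hR, hR'⟩ := state49 hX h12 h3 hA l w.reverse hr
  have t1 := T3_49 hX h12 h3 w.reverse hr _ hA
  have t2 := T3_49 hX h12 h3 w.reverse hr _ hA.transpose.neg
  unfold T3 at t1 t2
  have e1 : (muw (muw B w).transpose w.reverse).transpose = B := by
    rw [muw_transpose, muw_reverse, Matrix.transpose_transpose]
  have e2 : (muw (-(muw B w).transpose.transpose) w.reverse).transpose = -B.transpose := by
    rw [Matrix.transpose_transpose, muw_neg, muw_reverse, Matrix.transpose_neg]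
  rw [e1, List.reverse_reverse] at t1
  rw [e2, List.reverse_reverse] at t2
  refine ⟨σ, ?_, ?_⟩
  · rw [← t1]; exact vs_of_sign hX hA hσ hR
  · rw [← t2]; exact vs_of_sign hX hA.transpose.neg hσ hR'

/-- Lemma 7 -/
theorem P3_succ (hX : Axis49 Res) {d : ℕ} (h12 : P12 n d) (h3 : P3 n d) : P3 n (d + 1) := by
  intro B hB w hw l k hc j hj
  by_contra hne
  -- `A = -Bᵀ`, the `c`-vector of `A` is not supported on `{k}`
  have hA : TSSS (-B.transpose) := hB.transpose.neg
  have p := P12_succ hX h12 h3
  obtain ⟨ε, v1, v2⟩ := p B hB w hw l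
  obtain ⟨σ, hσ, hR, hR'⟩ := state49 hX h12 h3 hB k w hw
  -- row `k` of `G(A, w)`
  have d2 := dualD' h12 hB w hw
  have e2 := pair_col d2 hc
  have f2 := e2 l
  rw [if_pos rfl] at f2
  have s1 := hX.sign _ hA w k σ hR' l
  have hR2 := hX.stepA _ hA w k l σ ε hR' v2 ⟨j, hj, hne⟩
  have s2 := hX.sign _ hA (w ++ [l]) k σ hR2 l
  have hG := G_app hA v2
  have hkk : muw (-B.transpose) w l l = 0 := hA.diag w l
  rw [hG, mul_Fc_apply _ _ _ _ hkk, if_pos rfl] at s2
  have h0 : ∑ a, max (-ε * muw (-B.transpose) w a l) 0 * (cst (-B.transpose) w).G k a = 0 := by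
    apply Finset.sum_eq_zero
    intro a _
    by_cases ha : a = l
    · subst ha; rw [hkk]; simp
    · have := e2 a
      rw [if_neg ha] at this
      rcases mul_eq_zero.1 this with h | h
      · rw [h, mul_zero]
      · exfalso
        rw [h, mul_zero] at f2
        exact zero_ne_one f2
  rw [h0, add_zero] at s2
  rcases mul_one_cases f2 with ⟨b1, -⟩ | ⟨b1, -⟩ <;> rw [b1] at s1 s2 <;>
    rcases hσ with rfl | rfl <;> linarith

theorem P_all (hX : Axis49 Res) (d : ℕ) : P12 n d ∧ P3 n d := by
  induction d with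
  | zero =>
    constructor
    · intro B _ w hw l
      have : w = [] := List.length_eq_zero_iff.mp (Nat.le_zero.mp hw)
      subst this
      refine ⟨1, ⟨Or.inl rfl, fun j => ?_⟩, ⟨Or.inl rfl, fun j => ?_⟩⟩ <;>
      · simp only [cst, cinit, List.foldl_nil, Matrix.one_apply]
        split_ifs <;> norm_num
    · intro B _ w hw l k hc j hj
      have : w = [] := List.length_eq_zero_iff.mp (Nat.le_zero.mp hw)
      subst this
      exact hc j hj
  | succ d ih => exact ⟨P12_succ hX ih.1 ih.2, P3_succ hX ih.1 ih.2⟩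

/-- sign-coherence of `c`-vectors -/
theorem coherent49 (hX : Axis49 Res) {B : Matrix (Fin n) (Fin n) ℤ} (hB : TSSS B)
    (w : List (Fin n)) (l : Fin n) :
    ∃ ε : ℤ, VS ε (cst B w).C l ∧ VS ε (cst (-B.transpose) w).C l :=
  (P_all hX w.length).1 B hB w le_rfl l

/-- the change of the initial seed, for the integer recursions -/
theorem int49 (hX : Axis49 Res) {B : Matrix (Fin n) (Fin n) ℤ} (hB : TSSS B) (k a : Fin n)
    (w : List (Fin n)) :
    (cst (mu k B) (k :: w)).G k a = -(cst B w).G k a ∧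
    ∀ i, i ≠ k → (cst (mu k B) (k :: w)).G i a
      = (cst B w).G i a + max (B i k) 0 * (cst B w).G k a - B i k * min ((cst B w).G k a) 0 := by
  obtain ⟨h12, h3⟩ := P_all hX w.length
  obtain ⟨σ, hσ, hR, -, hG⟩ := base49 hX h12 h3 hB k w le_rfl
  have h5 := hX.sign B hB w k σ hR a
  constructor
  · rw [hG, ErT_mul_apply, if_pos rfl]
  · intro i hi
    rw [hG, ErT_mul_apply, if_neg hi]
    rcases hσ with rfl | rfl
    · have h6 : 0 ≤ (cst B w).G k a := by linarith
      rw [min_eq_right h6, one_mul]; ring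
    · have h6 : (cst B w).G k a ≤ 0 := by linarith
      rw [min_eq_left h6, neg_one_mul]
      have := max_sub_max (B i k)
      have h7 : max (-B i k) 0 = max (B i k) 0 - B i k := by linarith
      rw [h7]; ring

end Pool.Agent.Lib.MP_51fc07_al.GV.Int49
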