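import Pool.Agent.Lib.MP_51fc07_al.Rec
import Pool.Agent.Lib.MP_51fc07_al.Dual

/-!
Project GV (MP_51fc07_al): seeds over any field, Laurent polynomials, the evaluation principle.
-/

set_option autoImplicit false

namespace Pool.Agent.Lib.MP_51fc07_al.GV

open Pool.Agent.Lib.MP_51fc07_al

variable {n : ℕ}

/-- extended matrices -/
abbrev EM (n : ℕ) : Type := Fin n ⊕ Fin n → Fin n → ℤ

/-- the matrix part of the mutation -/
def mstep (M : EM n) (k : Fin n) : EM n :=
  fun i j => if i = Sum.inl k ∨ j = k then -M i j
      else M i j + max (M i k) 0 * max (M (Sum.inl k) j) 0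
        - max (-M i k) 0 * max (-M (Sum.inl k) j) 0

/-- the extended matrix after a word -/
def mseed (M : EM n) (w : List (Fin n)) : EM n := List.foldl mstep M w

/-- mutation of a seed over a field -/
def gstep {K : Type*} [Field K] (y : Fin n → K) (s : (Fin n → K) × EM n) (k : Fin n) :
    (Fin n → K) × EM n :=
  ((fun j => if j = k then
      ((∏ i : Fin n ⊕ Fin n, (Sum.elim s.1 y i) ^ (s.2 i k).toNat)
       + ∏ i : Fin n ⊕ Fin n, (Sum.elim s.1 y i) ^ (-s.2 i k).toNat)
      / s.1 k
    else s.1 j),
   mstep s.2 k)

/-- the seed after a word -/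
def gseed {K : Type*} [Field K] (y : Fin n → K) (s : (Fin n → K) × EM n) (w : List (Fin n)) :
    (Fin n → K) × EM n := List.foldl (gstep y) s w

/-- the extended matrix with principal coefficients -/
def ext (B : Matrix (Fin n) (Fin n) ℤ) : EM n :=
  Sum.elim (fun i j => B i j) (fun i j => if i = j then (1 : ℤ) else 0)

theorem step_eq (s : Seed n) (k : Fin n) : step s k = gstep (fun m => X' (Sum.inr m)) s k := rfl

theorem seed_eq (B : Matrix (Fin n) (Fin n) ℤ) (w : List (Fin n)) :
    seed B w = gseed (fun m => X' (Sum.inr m)) ((fun j => X' (Sum.inl j)), ext B) w := rfl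

theorem gseed_snd {K : Type*} [Field K] (y : Fin n → K) (s : (Fin n → K) × EM n)
    (w : List (Fin n)) : (gseed y s w).2 = mseed s.2 w := by
  induction w generalizing s with
  | nil => rfl
  | cons k w ih => exact ih (gstep y s k)

theorem gseed_append {K : Type*} [Field K] (y : Fin n → K) (s : (Fin n → K) × EM n)
    (w : List (Fin n)) (l : Fin n) : gseed y s (w ++ [l]) = gstep y (gseed y s w) l := by
  simp [gseed, List.foldl_append]

theorem mseed_cons (M : EM n) (k : Fin n) (w : List (Fin n)) :
    mseed M (k :: w) = mseed (mstep M k) w := rfl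

theorem mstep_mstep (M : EM n) (k : Fin n) : mstep (mstep M k) k = M := by
  funext i j
  unfold mstep
  by_cases h1 : i = Sum.inl k
  · simp [h1]
  · by_cases h2 : j = k
    · simp [h2]
    · simp only [h1, h2, or_self, if_false, or_true, true_or, if_true, neg_neg]
      ring

theorem mstep_neg (M : EM n) (k : Fin n) : mstep (-M) k = -mstep M k := by
  funext i j
  simp only [mstep, Pi.neg_apply]
  split_ifs with h
  · rfl
  · simp only [neg_neg]
    ring

/-- the top part -/
def tp (M : EM n) : Matrix (Fin n) (Fin n) ℤ := Matrix.of fun i j => M (Sum.inl i) j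

theorem tp_mstep (M : EM n) (k : Fin n) : tp (mstep M k) = mu k (tp M) := by
  ext i j
  simp only [tp, mstep, mu, Matrix.of_apply, Sum.inl.injEq]

theorem tp_mseed (M : EM n) (w : List (Fin n)) : tp (mseed M w) = muw (tp M) w := by
  induction w generalizing M with
  | nil => rfl
  | cons k w ih =>
    rw [mseed_cons, ih, tp_mstep]
    rfl

/-- good extended matrices -/
def Good (M : EM n) : Prop := TSSS (tp M) ∧
  ∀ v : Fin n → ℤ, (∀ s, ∑ j, M s j * v j = 0) → v = 0

theorem sss_diag {B : Matrix (Fin n) (Fin n) ℤ} (h : SSS B) (i : Fin n) : B i i = 0 := by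
  rcases h i i with h1 | h1
  · exact h1.1
  · nlinarith [mul_self_nonneg (B i i)]

theorem TSSS.sss {B : Matrix (Fin n) (Fin n) ℤ} (h : TSSS B) : SSS B := h []

theorem Good.diag {M : EM n} (h : Good M) (i : Fin n) : M (Sum.inl i) i = 0 :=
  sss_diag (TSSS.sss h.1) i

theorem Good.neg {M : EM n} (h : Good M) : Good (-M) := by
  refine ⟨?_, ?_⟩
  · have : tp (-M) = -tp M := by
      ext i j
      rfl
    rw [this]
    exact h.1.neg
  · intro v hv
    apply h.2
    intro s
    have h1 := hv s
    simp only [Pi.neg_apply, neg_mul, Finset.sum_neg_distrib, neg_eq_zero] at h1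
    exact h1

theorem max_id (x y : ℤ) : max x 0 * max y 0 - max (-x) 0 * max (-y) 0 =
    x * max y 0 + max (-x) 0 * y := by
  have h1 := max_sub_max x
  have h2 := max_sub_max y
  have h3 : max x 0 = x + max (-x) 0 := by linarith
  have h4 : max (-y) 0 = max y 0 - y := by linarith
  rw [h3, h4]
  ring

theorem Good.step {M : EM n} (h : Good M) (k : Fin n) : Good (mstep M k) := by
  classical
  refine ⟨?_, ?_⟩
  · rw [tp_mstep]
    exact h.1.mu k
  · intro v hv
    have hkk := h.diag k
    have hk : ∑ j, M (Sum.inl k) j * v j = 0 := by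
      have h1 := hv (Sum.inl k)
      simp only [mstep, true_or, if_true, neg_mul, Finset.sum_neg_distrib, neg_eq_zero] at h1
      exact h1
    set v' : Fin n → ℤ := Function.update v k
      (-v k + ∑ j, max (M (Sum.inl k) j) 0 * v j) with hv'
    have key : ∀ s, ∑ j, M s j * v' j = 0 := by
      intro s
      have e1 : ∑ j, M s j * v' j = M s k * v' k + ∑ j ∈ Finset.univ.erase k, M s j * v j := by
        rw [← Finset.add_sum_erase _ _ (Finset.mem_univ k)]
        congr 1
        refine Finset.sum_congr rfl fun j hj => ?_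
        rw [hv', Function.update_of_ne (Finset.ne_of_mem_erase hj)]
      by_cases hs : s = Sum.inl k
      · subst hs
        rw [e1, hkk, zero_mul, zero_add]
        rw [← Finset.add_sum_erase _ _ (Finset.mem_univ k), hkk, zero_mul, zero_add] at hk
        exact hk
      · have h1 := hv s
        have h2 : ∑ j, mstep M k s j * v j = -(M s k * v k) + ∑ j ∈ Finset.univ.erase k,
            (M s j + (M s k * max (M (Sum.inl k) j) 0 + max (-M s k) 0 * M (Sum.inl k) j)) *
              v j := by
          rw [← Finset.add_sum_erase _ _ (Finset.mem_univ k)]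
          congr 1
          · simp [mstep]
          · refine Finset.sum_congr rfl fun j hj => ?_
            have hjk := Finset.ne_of_mem_erase hj
            rw [← max_id]
            simp only [mstep, hs, hjk, or_self, if_false]
            ring
        have h3 : ∑ j ∈ Finset.univ.erase k,
            (M s j + (M s k * max (M (Sum.inl k) j) 0 + max (-M s k) 0 * M (Sum.inl k) j)) *
              v j = ∑ j ∈ Finset.univ.erase k, M s j * v j +
              M s k * ∑ j ∈ Finset.univ.erase k, max (M (Sum.inl k) j) 0 * v j +
              max (-M s k) 0 * ∑ j ∈ Finset.univ.erase k, M (Sum.inl k) j * v j := by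
          rw [Finset.mul_sum, Finset.mul_sum, ← Finset.sum_add_distrib, ← Finset.sum_add_distrib]
          refine Finset.sum_congr rfl fun j _ => ?_
          ring
        have h4 : ∑ j ∈ Finset.univ.erase k, M (Sum.inl k) j * v j = 0 := by
          rw [← Finset.add_sum_erase _ _ (Finset.mem_univ k), hkk, zero_mul, zero_add] at hk
          exact hk
        have h5 : v' k = -v k + ∑ j ∈ Finset.univ.erase k, max (M (Sum.inl k) j) 0 * v j := by
          rw [hv', Function.update_self, ← Finset.add_sum_erase _ _ (Finset.mem_univ k), hkk]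
          simp
        rw [h2, h3, h4] at h1
        rw [e1, h5]
        linarith
    have h0 := h.2 v' key
    have hz : ∀ j, j ≠ k → v j = 0 := by
      intro j hj
      have h1 := congrFun h0 j
      rwa [hv', Function.update_of_ne hj] at h1
    have hzk : v k = 0 := by
      have h1 := congrFun h0 k
      rw [hv', Function.update_self, ← Finset.add_sum_erase _ _ (Finset.mem_univ k), hkk] at h1
      rw [Finset.sum_eq_zero fun j hj => by rw [hz j (Finset.ne_of_mem_erase hj), mul_zero]] at h1
      simp at h1
      exact h1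
    funext j
    by_cases hj : j = k
    · rw [hj]
      exact hzk
    · exact hz j hj

theorem Good.seed {M : EM n} (h : Good M) (w : List (Fin n)) : Good (mseed M w) := by
  induction w generalizing M with
  | nil => exact h
  | cons k w ih => exact ih (h.step k)

theorem good_ext {B : Matrix (Fin n) (Fin n) ℤ} (h : TSSS B) : Good (ext B) := by
  refine ⟨?_, ?_⟩
  · have : tp (ext B) = B := by
      ext i j
      rfl
    rw [this]
    exact h
  · intro v hv
    funext i
    have h1 := hv (Sum.inr i)
    simpa [ext] using h1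

/-- two columns are not parallel -/
theorem Good.minor {M : EM n} (h : Good M) {i j : Fin n} (hij : i ≠ j) :
    ∃ s t, M s i * M t j - M t i * M s j ≠ 0 := by
  classical
  by_contra hc
  push Not at hc
  have h1 : ∃ s, M s i ≠ 0 := by
    by_contra h2
    push Not at h2
    have h3 := h.2 (Pi.single i 1) (fun s => by
      rw [Finset.sum_eq_single i]
      · rw [h2 s, zero_mul]
      · intro b _ hb
        rw [Pi.single_eq_of_ne hb, mul_zero]
      · intro h4
        exact absurd (Finset.mem_univ i) h4)
    have h4 := congrFun h3 i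
    rw [Pi.single_eq_same] at h4
    exact one_ne_zero h4
  obtain ⟨s, hs⟩ := h1
  have h3 := h.2 (Function.update (Pi.single i (M s j)) j (-M s i)) (fun t => by
    rw [← Finset.add_sum_erase _ _ (Finset.mem_univ j), Function.update_self,
      Finset.sum_eq_single i]
    · rw [Function.update_of_ne hij, Pi.single_eq_same]
      have := hc s t
      linarith
    · intro b hb hbi
      rw [Function.update_of_ne (Finset.ne_of_mem_erase hb), Pi.single_eq_of_ne hbi, mul_zero]
    · intro h4
      exact absurd (Finset.mem_erase.2 ⟨hij, Finset.mem_univ i⟩) h4)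
  have h4 := congrFun h3 j
  rw [Function.update_self] at h4
  exact hs (by simpa using h4)

/-! ### Involution and sign -/

theorem prod_upd {K : Type*} [Field K] (y : Fin n → K) (x x' : Fin n → K) (k : Fin n)
    (hx : ∀ j, j ≠ k → x' j = x j) (c : Fin n ⊕ Fin n → ℕ) (hc : c (Sum.inl k) = 0) :
    ∏ i, (Sum.elim x' y i) ^ c i = ∏ i, (Sum.elim x y i) ^ c i := by
  refine Finset.prod_congr rfl fun i _ => ?_
  rcases i with i | i
  · by_cases hi : i = k
    · rw [hi, hc, pow_zero, pow_zero]
    · simp only [Sum.elim_inl]
      rw [hx i hi]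
  · rfl

theorem gstep_gstep {K : Type*} [Field K] (y : Fin n → K) (s : (Fin n → K) × EM n) (k : Fin n)
    (hd : s.2 (Sum.inl k) k = 0) (h0 : s.1 k ≠ 0) (h1 : (gstep y s k).1 k ≠ 0) :
    gstep y (gstep y s k) k = s := by
  have e2 : (gstep y (gstep y s k) k).2 = s.2 := mstep_mstep s.2 k
  refine Prod.ext ?_ e2
  funext j
  by_cases hj : j = k
  · subst hj
    have hm : ∀ i, (gstep y s j).2 i j = -s.2 i j := by
      intro i
      simp [gstep, mstep]
    have f1 : (gstep y (gstep y s j) j).1 j =
        ((∏ i, (Sum.elim (gstep y s j).1 y i) ^ ((gstep y s j).2 i j).toNat)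
       + ∏ i, (Sum.elim (gstep y s j).1 y i) ^ (-(gstep y s j).2 i j).toNat)
        / (gstep y s j).1 j := by
      show (if j = j then _ else _) = _
      rw [if_pos rfl]
    have f2 : (gstep y s j).1 j = ((∏ i, (Sum.elim s.1 y i) ^ (s.2 i j).toNat)
       + ∏ i, (Sum.elim s.1 y i) ^ (-s.2 i j).toNat) / s.1 j := by
      show (if j = j then _ else _) = _
      rw [if_pos rfl]
    have hne : ∀ l, l ≠ j → (gstep y s j).1 l = s.1 l := by
      intro l hl
      show (if l = j then _ else _) = _
      rw [if_neg hl]
    rw [f1]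
    have g1 : ∏ i, (Sum.elim (gstep y s j).1 y i) ^ ((gstep y s j).2 i j).toNat =
        ∏ i, (Sum.elim s.1 y i) ^ (-s.2 i j).toNat := by
      rw [prod_upd y s.1 _ j hne _ (by rw [hm, hd]; rfl)]
      exact Finset.prod_congr rfl fun i _ => by rw [hm]
    have g2 : ∏ i, (Sum.elim (gstep y s j).1 y i) ^ (-(gstep y s j).2 i j).toNat =
        ∏ i, (Sum.elim s.1 y i) ^ (s.2 i j).toNat := by
      rw [prod_upd y s.1 _ j hne _ (by rw [hm, hd]; rfl)]
      exact Finset.prod_congr rfl fun i _ => by rw [hm, neg_neg]
    rw [g1, g2]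
    rw [f2] at h1 ⊢
    have h2 : (∏ i, (Sum.elim s.1 y i) ^ (s.2 i j).toNat)
       + ∏ i, (Sum.elim s.1 y i) ^ (-s.2 i j).toNat ≠ 0 := by
      intro h3
      rw [h3, zero_div] at h1
      exact h1 rfl
    rw [add_comm]
    field_simp
  · show (if j = k then _ else (if j = k then _ else s.1 j)) = s.1 j
    rw [if_neg hj, if_neg hj]

theorem gseed_neg {K : Type*} [Field K] (y : Fin n → K) (x : Fin n → K) (M : EM n)
    (w : List (Fin n)) : gseed y (x, -M) w = ((gseed y (x, M) w).1, -(gseed y (x, M) w).2) := by
  induction w generalizing x M with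
  | nil => rfl
  | cons k w ih =>
    have h1 : gstep y (x, -M) k = ((gstep y (x, M) k).1, -(gstep y (x, M) k).2) := by
      refine Prod.ext ?_ (mstep_neg M k)
      funext j
      simp only [gstep, Pi.neg_apply, neg_neg]
      rw [add_comm]
    show gseed y (gstep y (x, -M) k) w = _
    rw [h1, ih]
    rfl

end Pool.Agent.Lib.MP_51fc07_al.GV
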