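import Mathlib

/-!
# MP_51fc07_al, GV, module L: binomials with independent exponents

`1 + z^c` divides `f` when it divides `(1 + r z^d) f`, for exponents `c`, `d` which are separated by
a linear form `lam` with `lam c = 0`, `lam d ≠ 0`.
-/

set_option autoImplicit false

open Classical

namespace Pool.Agent.Lib.MP_51fc07_al.GV

open AddMonoidAlgebra

variable {E : Type*} [AddCommGroup E]

/-- The component of degree `i` for the grading given by `lam`. -/
noncomputable def cmp67 (lam : E →+ ℤ) (i : ℤ) (f : AddMonoidAlgebra ℤ E) : AddMonoidAlgebra ℤ E :=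
  ofCoeff (f.coeff.filter (fun e => lam e = i))

theorem coeff_cmp67 (lam : E →+ ℤ) (i : ℤ) (f : AddMonoidAlgebra ℤ E) (e : E) :
    (cmp67 lam i f).coeff e = if lam e = i then f.coeff e else 0 := by
  rw [cmp67, coeff_ofCoeff, Finsupp.filter_apply]

theorem cmp67_add (lam : E →+ ℤ) (i : ℤ) (f g : AddMonoidAlgebra ℤ E) :
    cmp67 lam i (f + g) = cmp67 lam i f + cmp67 lam i g := by
  ext e
  rw [coeff_add, Finsupp.add_apply, coeff_cmp67, coeff_cmp67, coeff_cmp67, coeff_add,
    Finsupp.add_apply]
  split_ifs <;> simp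

theorem cmp67_single_mul (lam : E →+ ℤ) (i : ℤ) (d : E) (r : ℤ) (f : AddMonoidAlgebra ℤ E) :
    cmp67 lam i (single d r * f) = single d r * cmp67 lam (i - lam d) f := by
  ext e
  have hl : lam (-d + e) = -lam d + lam e := by rw [lam.map_add, lam.map_neg]
  rw [coeff_cmp67, coeff_single_mul_apply, coeff_single_mul_apply, coeff_cmp67, hl]
  by_cases h : lam e = i
  · rw [if_pos h, if_pos (by omega)]
  · rw [if_neg h, if_neg (by omega), mul_zero]

theorem sum_cmp67 (lam : E →+ ℤ) (f : AddMonoidAlgebra ℤ E) :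
    f = ∑ i ∈ f.coeff.support.image lam, cmp67 lam i f := by
  ext e
  rw [coeff_sum, Finsupp.finsetSum_apply]
  simp only [coeff_cmp67]
  by_cases he : f.coeff e = 0
  · rw [he]
    simp
  · rw [Finset.sum_ite_eq, if_pos]
    exact Finset.mem_image_of_mem _ (Finsupp.mem_support_iff.2 he)

theorem dvd_cmp67 (lam : E →+ ℤ) {c : E} (hc : lam c = 0) {h : AddMonoidAlgebra ℤ E}
    (hd : (1 + single c 1 : AddMonoidAlgebra ℤ E) ∣ h) (i : ℤ) :
    (1 + single c 1 : AddMonoidAlgebra ℤ E) ∣ cmp67 lam i h := by
  obtain ⟨g, rfl⟩ := hd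
  refine ⟨cmp67 lam i g, ?_⟩
  rw [add_mul, one_mul, cmp67_add, cmp67_single_mul, hc, sub_zero, add_mul, one_mul]

/-- (NZD) `1 + r z^d` is a non zero divisor modulo `1 + z^c`. -/
theorem nzd67 (lam : E →+ ℤ) {c d : E} (hc : lam c = 0) (hd : lam d ≠ 0) (r : ℤ)
    (f : AddMonoidAlgebra ℤ E)
    (h : (1 + single c 1 : AddMonoidAlgebra ℤ E) ∣ (1 + single d r) * f) :
    (1 + single c 1 : AddMonoidAlgebra ℤ E) ∣ f := by
  -- one step
  have h1 : ∀ i, (1 + single c 1 : AddMonoidAlgebra ℤ E) ∣ cmp67 lam (i - lam d) f →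
      (1 + single c 1 : AddMonoidAlgebra ℤ E) ∣ cmp67 lam i f := by
    intro i hi
    have h2 := dvd_cmp67 lam hc h i
    rw [add_mul, one_mul, cmp67_add, cmp67_single_mul] at h2
    exact (dvd_add_left (Dvd.dvd.mul_left hi _)).1 h2
  -- components far away vanish
  have h2 : ∀ i, ∃ m : ℕ, cmp67 lam (i - m * lam d) f = 0 := by
    intro i
    by_contra hcon
    push Not at hcon
    have h3 : ∀ m : ℕ, i - m * lam d ∈ f.coeff.support.image lam := by
      intro m
      by_contra h4
      refine hcon m ?_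
      ext e
      rw [coeff_cmp67]
      split_ifs with h5
      · by_contra h6
        exact h4 (h5 ▸ Finset.mem_image_of_mem _ (Finsupp.mem_support_iff.2 h6))
      · rfl
    have h4 : Function.Injective (fun m : ℕ => i - m * lam d) := by
      intro m m' hm
      have h5 : (m : ℤ) * lam d = m' * lam d := by
        simp only at hm
        omega
      exact_mod_cast mul_right_cancel₀ hd h5
    exact Set.infinite_range_of_injective h4
      ((f.coeff.support.image lam).finite_toSet.subset (by
        rintro x ⟨m, rfl⟩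
        exact h3 m))
  have h3 : ∀ i, (1 + single c 1 : AddMonoidAlgebra ℤ E) ∣ cmp67 lam i f := by
    intro i
    obtain ⟨m, hm⟩ := h2 i
    have h4 : ∀ l : ℕ, l ≤ m → (1 + single c 1 : AddMonoidAlgebra ℤ E) ∣
        cmp67 lam (i - (m - l : ℕ) * lam d) f := by
      intro l
      induction l with
      | zero =>
        intro _
        rw [Nat.sub_zero, hm]
        exact dvd_zero _
      | succ l ih =>
        intro hl
        apply h1
        have h5 := ih (by omega)
        have h6 : i - ((m - (l + 1) : ℕ) : ℤ) * lam d - lam d = i - ((m - l : ℕ) : ℤ) * lam d := by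
          have h7 : ((m - l : ℕ) : ℤ) = ((m - (l + 1) : ℕ) : ℤ) + 1 := by omega
          rw [h7]
          ring
        rw [h6]
        exact h5
    have h5 := h4 m le_rfl
    rw [Nat.sub_self] at h5
    simpa using h5
  rw [sum_cmp67 lam f]
  exact Finset.dvd_sum fun i _ => h3 i

end Pool.Agent.Lib.MP_51fc07_al.GV
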