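import Pool.Agent.Lib.MP_51fc07_al.GV.StmtsR22
import Pool.Agent.Lib.MP_51fc07_al.GV.Nzd67

/-!
Project GV (MP_51fc07_al): module L, the rank two step.
-/

set_option autoImplicit false

namespace Pool.Agent.Lib.MP_51fc07_al.GV

open Pool.Agent.Lib.MP_51fc07_al

namespace R2

variable {n : ℕ}

/-- exponents -/
abbrev E (n : ℕ) : Type := Fin n ⊕ Fin n → ℤ

theorem mon_add (e f : E n) : mon (e + f) = mon e * mon f := by
  unfold mon
  rw [AddMonoidAlgebra.single_mul_single, one_mul]

theorem mon_zero : mon (0 : E n) = 1 := rfl

theorem mon_nsmul (m : ℕ) (e : E n) : mon (m • e) = mon e ^ m := by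
  induction m with
  | zero => rw [zero_smul, pow_zero, mon_zero]
  | succ m ih => rw [succ_nsmul, mon_add, ih, pow_succ]

theorem mon_unit (e : E n) : IsUnit (mon e) := by
  refine IsUnit.of_mul_eq_one (mon (-e)) ?_
  rw [← mon_add, add_neg_cancel, mon_zero]

theorem mon_sum {ι : Type*} (s : Finset ι) (f : ι → E n) :
    mon (∑ i ∈ s, f i) = ∏ i ∈ s, mon (f i) := by
  classical
  induction s using Finset.induction_on with
  | empty => rw [Finset.sum_empty, Finset.prod_empty, mon_zero]
  | insert a s ha ih => rw [Finset.sum_insert ha, Finset.prod_insert ha, mon_add, ih]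

/-- positive part -/
def pp (c : E n) : E n := fun s => max (c s) 0

theorem pp_sub (c : E n) : pp c = c + pp (-c) := by
  funext s
  have := max_sub_max (c s)
  simp only [pp, Pi.add_apply, Pi.neg_apply]
  linarith

theorem prod_lt (k : Fin n ⊕ Fin n → ℕ) : ∏ s, (lt s : LA n) ^ k s = mon (fun s => (k s : ℤ)) := by
  classical
  have h : (fun s => (k s : ℤ)) = ∑ s, (k s) • (Pi.single s 1 : E n) := by
    funext t
    rw [Finset.sum_apply, Finset.sum_eq_single t]
    · simp
    · intro b _ hb
      rw [Pi.smul_apply, Pi.single_eq_of_ne hb.symm, smul_zero]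
    · intro h
      exact absurd (Finset.mem_univ t) h
  rw [h, mon_sum]
  refine Finset.prod_congr rfl fun s _ => ?_
  rw [mon_nsmul]
  rfl

theorem prod_upd' [DecidableEq (Fin n ⊕ Fin n)] (f : Fin n ⊕ Fin n → LA n) (t : Fin n ⊕ Fin n)
    (u : LA n) (k : Fin n ⊕ Fin n → ℕ) :
    ∏ s, (Function.update f t u s) ^ k s = u ^ k t * ∏ s, (f s) ^ (Function.update k t 0 s) := by
  rw [← Finset.mul_prod_erase _ _ (Finset.mem_univ t), Function.update_self]
  congr 1
  rw [← Finset.mul_prod_erase _ (fun s => (f s) ^ (Function.update k t 0 s)) (Finset.mem_univ t),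
    Function.update_self, pow_zero, one_mul]
  refine Finset.prod_congr rfl fun s hs => ?_
  rw [Function.update_of_ne (Finset.ne_of_mem_erase hs),
    Function.update_of_ne (Finset.ne_of_mem_erase hs)]

theorem elim_lt : (Sum.elim (fun a => lt (Sum.inl a)) (fun m => lt (Sum.inr m)) :
    Fin n ⊕ Fin n → LA n) = lt := by
  funext s
  rcases s with s | s <;> rfl

theorem toNat_cast (x : ℤ) : ((x.toNat : ℕ) : ℤ) = max x 0 := by omega

theorem rhs0 (c : E n) : rhs (fun a => lt (Sum.inl a)) c = mon (pp c) + mon (pp (-c)) := by
  unfold rhs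
  rw [elim_lt, prod_lt, prod_lt]
  congr 1
  · congr 1
    funext s
    exact toNat_cast _
  · congr 1
    funext s
    exact toNat_cast _

theorem prod1 (i : Fin n) (u : LA n) (c : E n) :
    ∏ s, (Sum.elim (Function.update (fun a => lt (Sum.inl a)) i u)
      (fun m => (lt (Sum.inr m) : LA n)) s) ^ (c s).toNat =
      u ^ (c (Sum.inl i)).toNat * mon (Function.update (pp c) (Sum.inl i) 0) := by
  classical
  have h1 : (Sum.elim (Function.update (fun a => lt (Sum.inl a)) i u)
      (fun m => (lt (Sum.inr m) : LA n))) = Function.update lt (Sum.inl i) u := by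
    rw [← Sum.update_elim_inl, elim_lt]
  rw [h1, prod_upd', prod_lt]
  congr 2
  funext s
  by_cases hs : s = Sum.inl i
  · rw [hs, Function.update_self, Function.update_self]
    rfl
  · rw [Function.update_of_ne hs, Function.update_of_ne hs]
    exact toNat_cast _

theorem prod2 (i j : Fin n) (u v : LA n) (c : E n) :
    ∏ s, (Sum.elim (Function.update (Function.update (fun a => lt (Sum.inl a)) i u) j v)
      (fun m => (lt (Sum.inr m) : LA n)) s) ^ (c s).toNat =
      v ^ (c (Sum.inl j)).toNat * (u ^ ((Function.update c (Sum.inl j) 0) (Sum.inl i)).toNat *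
        mon (Function.update (pp (Function.update c (Sum.inl j) 0)) (Sum.inl i) 0)) := by
  classical
  have h1 : (Sum.elim (Function.update (Function.update (fun a => lt (Sum.inl a)) i u) j v)
      (fun m => (lt (Sum.inr m) : LA n))) =
      Function.update (Sum.elim (Function.update (fun a => lt (Sum.inl a)) i u)
      (fun m => (lt (Sum.inr m) : LA n))) (Sum.inl j) v := by
    rw [Sum.update_elim_inl]
  rw [h1, prod_upd', ← prod1]
  congr 1
  refine Finset.prod_congr rfl fun s _ => ?_
  congr 1
  by_cases hs : s = Sum.inl j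
  · rw [hs, Function.update_self, Function.update_self]
    rfl
  · rw [Function.update_of_ne hs, Function.update_of_ne hs]

/-- coordinate -/
def co (s : Fin n ⊕ Fin n) : E n →+ ℤ where
  toFun e := e s
  map_zero' := rfl
  map_add' _ _ := rfl

/-- minor -/
def mi (s t : Fin n ⊕ Fin n) (c : E n) : E n →+ ℤ where
  toFun e := c s * e t - c t * e s
  map_zero' := by simp
  map_add' e f := by simp only [Pi.add_apply]; ring

theorem unit_dvd {a b f : LA n} (hb : IsUnit b) (h : a ∣ b * f) : a ∣ f :=
  (hb.dvd_mul_left).1 h

theorem main (M : EM n) (hM : Good M) (i j : Fin n) (hij : i ≠ j) (hb : 0 ≤ M (Sum.inl i) j) :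
    ∃ u v r : LA n,
    lt (Sum.inl i) * u = rhs (fun a => lt (Sum.inl a)) (fun s => M s i) ∧
    lt (Sum.inl j) * v = rhs (Function.update (fun a => lt (Sum.inl a)) i u)
      (fun s => mstep M i s j) ∧
    u * r = rhs (Function.update (Function.update (fun a => lt (Sum.inl a)) i u) j v)
      (fun s => mstep (mstep M i) j s i) ∧
    (∀ f, u ∣ v * f → u ∣ f) ∧ (∀ f, u ∣ r * f → u ∣ f) := by
  classical
  have hM1 := hM.step i
  have hM2 := hM1.step j
  set c : E n := fun s => M s i with hc
  set c' : E n := fun s => mstep M i s j with hc'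
  set c'' : E n := fun s => mstep (mstep M i) j s i with hc''
  set ei : E n := Pi.single (Sum.inl i) 1 with hei
  set ej : E n := Pi.single (Sum.inl j) 1 with hej
  have hlti : (lt (Sum.inl i) : LA n) = mon ei := rfl
  have hltj : (lt (Sum.inl j) : LA n) = mon ej := rfl
  have hji : (Sum.inl j : Fin n ⊕ Fin n) ≠ Sum.inl i := fun h => hij (Sum.inl.inj h).symm
  have hij' : (Sum.inl i : Fin n ⊕ Fin n) ≠ Sum.inl j := fun h => hij (Sum.inl.inj h)
  have ci : c (Sum.inl i) = 0 := hM.diag i
  have c'j : c' (Sum.inl j) = 0 := hM1.diag j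
  have c''i : c'' (Sum.inl i) = 0 := hM2.diag i
  have c'i : c' (Sum.inl i) = -M (Sum.inl i) j := by simp [hc', mstep]
  have M1ji : mstep M i (Sum.inl j) i = -M (Sum.inl j) i := by simp [mstep]
  have c''j : c'' (Sum.inl j) = M (Sum.inl j) i := by
    simp only [hc'']
    rw [show mstep (mstep M i) j (Sum.inl j) i = -mstep M i (Sum.inl j) i by simp [mstep], M1ji,
      neg_neg]
  set u : LA n := mon (pp (-c) - ei) * (1 + mon c) with hu
  have hu1 : mon ei * u = mon (pp c) + mon (pp (-c)) := by
    rw [hu, ← mul_assoc, ← mon_add, mul_add, mul_one, ← mon_add, add_comm]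
    congr 2
    · rw [pp_sub c]
      abel
    · abel
  have uc : ∀ f, u ∣ f ↔ (1 + mon c) ∣ f := by
    intro f
    rw [hu]
    exact (mon_unit _).mul_left_dvd
  have E1 : lt (Sum.inl i) * u = rhs (fun a => lt (Sum.inl a)) c := by
    rw [rhs0, hlti, hu1]
  have hsss := TSSS.sss hM.1 i j
  have hsss' : (M (Sum.inl i) j = 0 ∧ M (Sum.inl j) i = 0) ∨
      M (Sum.inl i) j * M (Sum.inl j) i < 0 := hsss
  have nzd : ∀ (lam : E n →+ ℤ) (p q : E n) (r : ℤ), lam c = 0 → lam (q - p) ≠ 0 → ∀ f : LA n,
      u ∣ (mon p + AddMonoidAlgebra.single q r) * f → u ∣ f := by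
    intro lam p q r h1 h2 f hf
    rw [uc] at hf ⊢
    refine nzd67 lam h1 h2 r f ?_
    have h3 : (mon p + AddMonoidAlgebra.single q r : LA n) =
        mon p * (1 + AddMonoidAlgebra.single (q - p) r) := by
      rw [mul_add, mul_one]
      unfold mon
      rw [AddMonoidAlgebra.single_mul_single, one_mul, add_sub_cancel]
    rw [h3, mul_assoc] at hf
    exact unit_dvd (mon_unit p) hf
  rcases hb.eq_or_lt with hb0 | hb0
  · -- commuting case
    have hMji : M (Sum.inl j) i = 0 := by
      rcases hsss' with h | h
      · exact h.2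
      · rw [← hb0] at h
        simp at h
    have hc'e : c' = fun s => M s j := by
      funext s
      simp only [hc', mstep]
      split_ifs with h
      · rcases h with h | h
        · rw [h, ← hb0]
          rfl
        · exact absurd h hij.symm
      · rw [← hb0]
        simp
    have hc''e : c'' = -c := by
      funext s
      simp only [hc'', Pi.neg_apply, hc]
      by_cases hs : s = Sum.inl j
      · rw [hs]
        rw [show mstep (mstep M i) j (Sum.inl j) i = c'' (Sum.inl j) from rfl, c''j, hMji]
        rfl
      · have : mstep (mstep M i) j s i = mstep M i s i := by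
          rw [mstep]
          simp only [hs, hij, or_self, if_false, M1ji, hMji]
          simp
        rw [this]
        simp [mstep]
    set v : LA n := mon (pp (-c') - ej) * (1 + mon c') with hv
    have hv1 : mon ej * v = mon (pp c') + mon (pp (-c')) := by
      rw [hv, ← mul_assoc, ← mon_add, mul_add, mul_one, ← mon_add, add_comm]
      congr 2
      · rw [pp_sub c']
        abel
      · abel
    have upd0 : ∀ (e : E n) (t : Fin n ⊕ Fin n), e t = 0 → Function.update e t 0 = e := by
      intro e t h
      rw [← h, Function.update_eq_self]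
    refine ⟨u, v, mon ei, E1, ?_, ?_, ?_, ?_⟩
    · unfold rhs
      have h1 := prod1 i u c'
      have h2 := prod1 i u (-c')
      have h3 : c' (Sum.inl i) = 0 := by rw [c'i, ← hb0]; rfl
      have h4 : (-c') (Sum.inl i) = 0 := by rw [Pi.neg_apply, h3]; rfl
      rw [h3, upd0 (pp c') (Sum.inl i) (by simp [pp, h3])] at h1
      rw [h4, upd0 (pp (-c')) (Sum.inl i) (by simp [pp, h3])] at h2
      simp only [Int.toNat_zero, pow_zero, one_mul] at h1 h2
      rw [h1]
      simp only [Pi.neg_apply] at h2
      rw [h2, hltj, hv1]
    · unfold rhs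
      have h1 := prod2 i j u v c''
      have h2 := prod2 i j u v (-c'')
      have h3 : c'' (Sum.inl j) = 0 := by rw [c''j, hMji]
      have h4 : (-c'') (Sum.inl j) = 0 := by rw [Pi.neg_apply, h3]; rfl
      have h5 : (-c'') (Sum.inl i) = 0 := by rw [Pi.neg_apply, c''i]; rfl
      rw [upd0 c'' _ h3, h3, c''i, upd0 (pp c'') (Sum.inl i) (by simp [pp, c''i])] at h1
      rw [upd0 (-c'') _ h4, h4, h5, upd0 (pp (-c'')) (Sum.inl i) (by simp [pp, c''i])] at h2
      simp only [Int.toNat_zero, pow_zero, one_mul] at h1 h2
      rw [h1]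
      simp only [Pi.neg_apply] at h2
      rw [h2, hc''e, neg_neg, mul_comm, hu1, add_comm]
    · intro f hf
      rw [hv, mul_assoc] at hf
      have h1 := unit_dvd (mon_unit _) hf
      obtain ⟨s, t, hst⟩ := hM.minor hij
      refine nzd (mi s t c) 0 c' 1 ?_ ?_ f ?_
      · show c s * c t - c t * c s = 0
        ring
      · rw [sub_zero, hc'e]
        show M s i * M t j - M t i * M s j ≠ 0
        exact hst
      · rw [mon_zero]
        exact h1
    · intro f hf
      exact unit_dvd (mon_unit _) hf
  · -- noncommuting case
    have hMji : M (Sum.inl j) i < 0 := by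
      rcases hsss' with h | h
      · rw [h.1] at hb0
        exact absurd hb0 (lt_irrefl _)
      · by_contra h2
        push Not at h2
        have := mul_nonneg hb h2
        linarith
    obtain ⟨b, hbe⟩ : ∃ b : ℕ, M (Sum.inl i) j = (b : ℤ) + 1 :=
      ⟨(M (Sum.inl i) j - 1).toNat, by omega⟩
    obtain ⟨a, hae⟩ : ∃ a : ℕ, M (Sum.inl j) i = -((a : ℤ) + 1) :=
      ⟨(-M (Sum.inl j) i - 1).toNat, by omega⟩
    have ppc'i : pp c' (Sum.inl i) = 0 := by
      simp only [pp, c'i]
      omega
    have ppc''i : pp c'' (Sum.inl i) = 0 := by simp [pp, c''i]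
    have ppnc''i : pp (-c'') (Sum.inl i) = 0 := by simp [pp, c''i]
    set be : E n := pp c' - ej with hbe'
    set al : E n := Function.update (pp (-c')) (Sum.inl i) 0 - ej with hal
    set v : LA n := mon be + mon al * u ^ (b + 1) with hv
    set de : E n := pp c'' with hde
    set ga : E n := Function.update (pp (-c'')) (Sum.inl j) 0 with hga
    have hid : ga + (a + 1) • be = de + c := by
      funext s
      simp only [Pi.add_apply, Pi.smul_apply, hga, hde, hbe', Pi.sub_apply]
      by_cases hs : s = Sum.inl j
      · rw [hs, Function.update_self]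
        simp only [pp, c'j, c''j, hej, Pi.single_eq_same, hc, hae]
        simp
      · rw [Function.update_of_ne hs, hej, Pi.single_eq_of_ne hs]
        by_cases hs' : s = Sum.inl i
        · have ppc''i' : pp c'' (Sum.inl i) = 0 := ppc''i
          rw [hs', ppc'i, ppc''i', ppnc''i, ci]
          simp
        · have e1 : c'' s = -c s + ((a : ℤ) + 1) * max (c' s) 0 := by
            simp only [hc'', mstep, hs, hij, hij.symm, or_self, if_false, hs', or_false, or_true,
              if_true, true_or, hae, neg_neg]
            have e2 : c' s = M s j + max (M s i) 0 * max (M (Sum.inl i) j) 0 -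
                max (-M s i) 0 * max (-M (Sum.inl i) j) 0 := by
              simp only [hc', mstep, hs', hij.symm, or_self, if_false]
            rw [← e2]
            have e3 : max ((a : ℤ) + 1) 0 = (a : ℤ) + 1 := by omega
            have e4 : max (-((a : ℤ) + 1)) 0 = 0 := by omega
            rw [e3, e4, hc]
            ring
          have e5 := max_sub_max (c'' s)
          simp only [pp, Pi.neg_apply, sub_zero, nsmul_eq_mul]
          push_cast
          linarith
    have hga' : ∀ w : LA n, ∏ s, (Sum.elim
        (Function.update (Function.update (fun a => lt (Sum.inl a)) i u) j w)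
        (fun m => (lt (Sum.inr m) : LA n)) s) ^ (c'' s).toNat = mon de := by
      intro w
      have h1 := prod2 i j u w c''
      have h2 : (c'' (Sum.inl j)).toNat = 0 := by rw [c''j]; omega
      have h3 : Function.update c'' (Sum.inl j) 0 (Sum.inl i) = 0 := by
        rw [Function.update_of_ne hij', c''i]
      rw [h1, h2, h3, pow_zero, one_mul, Int.toNat_zero, pow_zero, one_mul]
      congr 1
      funext s
      by_cases hs : s = Sum.inl i
      · rw [hs, Function.update_self, ppc''i]
      · rw [Function.update_of_ne hs]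
        by_cases hs' : s = Sum.inl j
        · rw [hs']
          simp only [pp, Function.update_self, hde, c''j]
          omega
        · simp only [pp, Function.update_of_ne hs', hde]
    have hga'' : ∀ w : LA n, ∏ s, (Sum.elim
        (Function.update (Function.update (fun a => lt (Sum.inl a)) i u) j w)
        (fun m => (lt (Sum.inr m) : LA n)) s) ^ (-c'' s).toNat = w ^ (a + 1) * mon ga := by
      intro w
      have h1 := prod2 i j u w (-c'')
      have h2 : ((-c'') (Sum.inl j)).toNat = a + 1 := by
        rw [Pi.neg_apply, c''j, hae]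
        omega
      have h3 : Function.update (-c'') (Sum.inl j) 0 (Sum.inl i) = 0 := by
        rw [Function.update_of_ne hij', Pi.neg_apply, c''i]
        rfl
      simp only [Pi.neg_apply] at h1 h2
      rw [h1, h2, h3, Int.toNat_zero, pow_zero, one_mul]
      congr 2
      funext s
      by_cases hs : s = Sum.inl i
      · rw [hs, Function.update_self, hga, Function.update_of_ne hij', ppnc''i]
      · rw [Function.update_of_ne hs]
        by_cases hs' : s = Sum.inl j
        · rw [hs', hga, Function.update_self]
          simp [pp]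
        · rw [hga, Function.update_of_ne hs']
          simp only [pp, Function.update_of_ne hs']
    obtain ⟨T, hT⟩ := Polynomial.powAddExpansion (mon be) (mon al * u ^ (b + 1)) (a + 1)
    rw [← hv] at hT
    set r : LA n := mon (de + ei - pp (-c)) +
      mon ga * mon al * u ^ b * ((a + 1 : ℕ) * mon be ^ a + T * (mon al * u ^ (b + 1))) with hr
    refine ⟨u, v, r, E1, ?_, ?_, ?_, ?_⟩
    · unfold rhs
      have h1 := prod1 i u c'
      have h2 := prod1 i u (-c')
      have h3 : (c' (Sum.inl i)).toNat = 0 := by rw [c'i]; omega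
      have h4 : ((-c') (Sum.inl i)).toNat = b + 1 := by
        rw [Pi.neg_apply, c'i, hbe]
        omega
      have h5 : Function.update (pp c') (Sum.inl i) 0 = pp c' := by
        rw [← ppc'i, Function.update_eq_self]
      rw [h3, h5, pow_zero, one_mul] at h1
      rw [h4] at h2
      simp only [Pi.neg_apply] at h2
      rw [h1, h2, hltj, hv, mul_add, ← mon_add, ← mul_assoc, ← mon_add]
      rw [hbe', hal, add_sub_cancel, add_sub_cancel, mul_comm (u ^ (b + 1))]
    · unfold rhs
      rw [hga', hga'', hT]
      have h1 : u * mon (de + ei - pp (-c)) = mon de + mon ga * mon be ^ (a + 1) := by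
        rw [← mon_nsmul, ← mon_add, hid, hu, mul_comm, ← mul_assoc, ← mon_add, mul_add, mul_one,
          ← mon_add]
        congr 2
        · abel
        · abel
      have h2 : u * r = u * mon (de + ei - pp (-c)) +
          mon ga * (mon al * u ^ (b + 1)) * ((a + 1 : ℕ) * mon be ^ a +
            T * (mon al * u ^ (b + 1))) := by
        rw [hr, mul_add, pow_succ]
        ring
      rw [h2, h1, Nat.add_sub_cancel]
      ring
    · intro f hf
      have h1 : u ∣ mon al * u ^ (b + 1) * f :=
        Dvd.dvd.mul_right (Dvd.dvd.mul_left (dvd_pow_self u (Nat.succ_ne_zero b)) _) _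
      rw [hv, add_mul] at hf
      exact unit_dvd (mon_unit be) ((dvd_add_left h1).1 hf)
    · intro f hf
      rw [hr, add_mul] at hf
      cases b with
      | succ b =>
        have h1 : u ∣ mon ga * mon al * u ^ (b + 1) *
            ((a + 1 : ℕ) * mon be ^ a + T * (mon al * u ^ (b + 1 + 1))) * f :=
          Dvd.dvd.mul_right (Dvd.dvd.mul_right
            (Dvd.dvd.mul_left (dvd_pow_self u (Nat.succ_ne_zero b)) _) _) _
        exact unit_dvd (mon_unit _) ((dvd_add_left h1).1 hf)
      | zero =>
        rw [← add_mul] at hf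
        set p : E n := de + ei - pp (-c) with hp
        set q : E n := ga + al + a • be with hq
        have h1 : (mon p + mon ga * mon al * u ^ 0 *
            ((a + 1 : ℕ) * mon be ^ a + T * (mon al * u ^ (0 + 1)))) * f =
            (mon p + AddMonoidAlgebra.single q ((a : ℤ) + 1)) * f +
              u * (mon ga * mon al * T * mon al * f) := by
          have h2 : (AddMonoidAlgebra.single q ((a : ℤ) + 1) : LA n) =
              (a + 1 : ℕ) * (mon ga * mon al * mon be ^ a) := by
            rw [← mon_nsmul, ← mon_add, ← mon_add, ← hq]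
            unfold mon
            rw [← nsmul_eq_mul, AddMonoidAlgebra.smul_single]
            congr 1
            simp
          rw [h2]
          ring
        rw [h1] at hf
        have h3 := (dvd_add_left (Dvd.intro _ rfl)).1 hf
        refine nzd (co (Sum.inl i)) p q _ ci ?_ f h3
        show (q - p) (Sum.inl i) ≠ 0
        have hpi : p (Sum.inl i) = 1 := by
          have ppc''i' : pp c'' (Sum.inl i) = 0 := ppc''i
          simp only [hp, Pi.sub_apply, Pi.add_apply, hde, ppc''i', hei, Pi.single_eq_same]
          simp [pp, ci]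
        have hqi : q (Sum.inl i) = 0 := by
          simp only [hq, Pi.add_apply, Pi.smul_apply, hga, hal, hbe', Pi.sub_apply, ppc'i]
          rw [Function.update_of_ne hij', ppnc''i, Function.update_self, hej,
            Pi.single_eq_of_ne hij']
          simp
        rw [Pi.sub_apply, hpi, hqi]
        norm_num

end R2

/-- (R2) the rank two step -/
theorem stR2_22 : StR2 := fun _ M hM i j hij hb => R2.main M hM i j hij hb

end Pool.Agent.Lib.MP_51fc07_al.GV
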