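import Pool.Agent.Lib.MP_51fc07_al.GV.Ind26
import Pool.Agent.Lib.MP_51fc07_al.GV.AxEnd9
import Pool.Agent.Lib.MP_51fc07_al.GV.R2_22

/-!
Sign-coherence and dualities of C- and G-matrices for all totally sign-skew-symmetric matrices.
-/

set_option autoImplicit false

namespace Pool.Agent.Lib.MP_51fc07_al.GV

open Pool.Agent.Lib.MP_51fc07_al

variable {n : ℕ}

/-- the C-matrix (coefficient rows of the extended exchange matrix) at the end of the path `w` from
the seed with principal coefficients and exchange matrix `B` -/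
noncomputable def cmat (B : Matrix (Fin n) (Fin n) ℤ) (w : List (Fin n)) :
    Matrix (Fin n) (Fin n) ℤ := Matrix.of fun j k => (seed B w).2 (Sum.inr j) k

theorem cmat_eq (B : Matrix (Fin n) (Fin n) ℤ) (w : List (Fin n)) : cmat B w = (cst B w).C := by
  ext j k
  exact (seed_matrix B w).2 j k

theorem axI (n : ℕ) : AxI n Axis9.Res := axI9 (lau22 stR2_22) (lauNb22 stR2_22) n

theorem own26 {B : Matrix (Fin n) (Fin n) ℤ} (hB : TSSS B) (w : List (Fin n)) :
    (∀ k, ((∀ j, 0 ≤ cmat B w j k) ∨ (∀ j, cmat B w j k ≤ 0)) ∧ ∃ j, cmat B w j k ≠ 0) ∧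
    ∃ G : Matrix (Fin n) (Fin n) ℤ,
      (∀ a g, IsG B (clvar B w a) g ↔ g = fun i => G i a) ∧
      (∀ i, (∀ a, 0 ≤ G i a) ∨ (∀ a, G i a ≤ 0)) ∧
      (G.det = 1 ∨ G.det = -1) ∧
      G.transpose * cmat (-B.transpose) w = 1 ∧
      G.transpose = cmat (muw B w).transpose w.reverse ∧
      ∀ k a g, IsG (mu k B) (clvar (mu k B) (k :: w) a) g →
        g k = -G k a ∧
          ∀ i, i ≠ k → g i = G i a + max (B i k) 0 * G k a - B i k * min (G k a) 0 := by
  have hC : PL n w.length := PL.all (axI n) w.length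
  simp only [cmat_eq]
  have hd2 := hC.dual2 hB (w := w) (by omega)
  have hd2' := hC.dual2' hB (w := w) (by omega)
  refine ⟨fun k => ⟨?_, ?_⟩, (cst B w).G, ?_, ?_, ?_, ?_, ?_, ?_⟩
  · obtain ⟨ε, ⟨h1, h2⟩, _⟩ := hC.sign B hB w le_rfl k
    rcases h1 with rfl | rfl
    · left; intro j; have := h2 j; linarith
    · right; intro j; have := h2 j; linarith
  · by_contra hcon
    push Not at hcon
    have h' := mul_eq_one_comm.mp hd2'
    have h := congrFun (congrFun h' k) k
    rw [Matrix.mul_apply, Matrix.one_apply_eq] at h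
    rw [Finset.sum_eq_zero fun j _ => by rw [hcon j, mul_zero]] at h
    exact zero_ne_one h
  · intro a g
    constructor
    · intro h
      exact h.unique (isGp_clvar hB.diag w a).isG
    · rintro rfl
      exact (isGp_clvar hB.diag w a).isG
  · intro i
    obtain ⟨σ, hσ, r1, _⟩ := hC.states (axI n) hB w (by omega) i
    have h := (axI n).sign B hB w i σ r1
    rcases hσ with rfl | rfl
    · left; intro a; have := h a; linarith
    · right; intro a; have := h a; linarith
  · have h := congrArg Matrix.det hd2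
    rw [Matrix.det_mul, Matrix.det_one, Matrix.det_transpose, mul_comm] at h
    exact unit_cases h
  · exact mul_eq_one_comm.mp hd2
  · exact hC.T3' hB (by omega)
  · intro k a g hg
    have e2 := hg.unique (isGp_clvar (hB.mu k).diag (k :: w) a).isG
    obtain ⟨h1, h2⟩ := hC.G_change hB le_rfl k a
    rw [e2]
    exact ⟨h1, h2⟩

end Pool.Agent.Lib.MP_51fc07_al.GV
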