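import Pool.Agent.Lib.MP_51fc07_al.GV.LauA22

/-!
Project GV (MP_51fc07_al): module L, the rank two step (statement).
-/

set_option autoImplicit false

namespace Pool.Agent.Lib.MP_51fc07_al.GV

open Pool.Agent.Lib.MP_51fc07_al

/-- Laurent polynomials -/
abbrev LA (n : ℕ) : Type := AddMonoidAlgebra ℤ (Fin n ⊕ Fin n → ℤ)

/-- monomials -/
noncomputable def mon {n : ℕ} (e : Fin n ⊕ Fin n → ℤ) : LA n := AddMonoidAlgebra.single e 1

/-- letters -/
noncomputable def lt {n : ℕ} (s : Fin n ⊕ Fin n) : LA n := mon (Pi.single s 1)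

/-- the right hand side of an exchange relation in `LA n`; `x` are the values of the cluster -/
noncomputable def rhs {n : ℕ} (x : Fin n → LA n) (c : Fin n ⊕ Fin n → ℤ) : LA n :=
  ∏ s, (Sum.elim x (fun m => lt (Sum.inr m)) s) ^ (c s).toNat +
    ∏ s, (Sum.elim x (fun m => lt (Sum.inr m)) s) ^ (-c s).toNat

/-- (R2) three mutations `i, j, i` from the initial seed stay in `LA n`, and the second and third
new variables are not zero divisors modulo the first one -/
def StR2 : Prop := ∀ (n : ℕ) (M : EM n), Good M → ∀ i j : Fin n, i ≠ j → 0 ≤ M (Sum.inl i) j →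
  ∃ u v r : LA n,
    lt (Sum.inl i) * u = rhs (fun a => lt (Sum.inl a)) (fun s => M s i) ∧
    lt (Sum.inl j) * v = rhs (Function.update (fun a => lt (Sum.inl a)) i u)
      (fun s => mstep M i s j) ∧
    u * r = rhs (Function.update (Function.update (fun a => lt (Sum.inl a)) i u) j v)
      (fun s => mstep (mstep M i) j s i) ∧
    (∀ f, u ∣ v * f → u ∣ f) ∧ (∀ f, u ∣ r * f → u ∣ f)

end Pool.Agent.Lib.MP_51fc07_al.GV
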