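import Pool.Agent.Lib.MP_51fc07_al.Dual

/-!
Length-restricted dualities: the third duality for words of length at most `d + 1` from
sign-coherence and the support condition for words of length at most `d`.
-/

set_option autoImplicit false

namespace Pool.Agent.Lib.MP_51fc07_al.GV

open Pool.Agent.Lib.MP_51fc07_al

variable {n : ℕ}

/-- column `k` of `M` is zero outside row `j` -/
def OnlyAt (M : Matrix (Fin n) (Fin n) ℤ) (j k : Fin n) : Prop := ∀ i, i ≠ j → M i k = 0

/-- The statement proved by induction on `d`: signs of c-vectors for words of length at most `d`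
(equal for `B` and `-Bᵀ`), and the support condition. -/
structure PL (n d : ℕ) : Prop where
  sign : ∀ B : Matrix (Fin n) (Fin n) ℤ, TSSS B → ∀ w : List (Fin n), w.length ≤ d → ∀ k,
    ∃ ε : ℤ, VS ε (cst B w).C k ∧ VS ε (cst (-B.transpose) w).C k
  supp : ∀ B : Matrix (Fin n) (Fin n) ℤ, TSSS B → ∀ w : List (Fin n), w.length ≤ d → ∀ j k,
    OnlyAt (cst B w).C j k ↔ OnlyAt (cst (-B.transpose) w).C j k

theorem TSSS_muw {B : Matrix (Fin n) (Fin n) ℤ} (hB : TSSS B) (w : List (Fin n)) :
    TSSS (muw B w) := by
  induction w using List.reverseRecOn with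
  | nil => exact hB
  | append_singleton w k ih => rw [muw_concat]; exact ih.mu k

theorem TSSS_nt {B : Matrix (Fin n) (Fin n) ℤ} (hB : TSSS B) : TSSS (-B.transpose) :=
  hB.transpose.neg

theorem nt_nt (B : Matrix (Fin n) (Fin n) ℤ) : -(-B.transpose).transpose = B := by
  rw [Matrix.transpose_neg, Matrix.transpose_transpose, neg_neg]

theorem G_append {B : Matrix (Fin n) (Fin n) ℤ} (hB : TSSS B)
    {w : List (Fin n)} {k : Fin n} {ε : ℤ} (h : VS ε (cst B w).C k) :
    (cst B (w ++ [k])).G = (cst B w).G * Fc k ε (muw B w) := by
  rw [cst_append, ← cst_B]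
  exact G_step h (duality1 hB.diag w) (by rw [cst_B]; exact hB.diag w k)

section PLsec

variable {d : ℕ}

/-- the second duality -/
theorem PL.dual2 (hC : PL n d) {B : Matrix (Fin n) (Fin n) ℤ} (hB : TSSS B)
    {w : List (Fin n)} (hw : w.length ≤ d + 1) :
    (cst (-B.transpose) w).C * (cst B w).G.transpose = 1 := by
  induction w using List.reverseRecOn with
  | nil => simp [cst, cinit]
  | append_singleton w k ih =>
    have hl : w.length + 1 ≤ d + 1 := by simpa using hw
    obtain ⟨ε, h1, h2⟩ := hC.sign B hB w (by omega) k
    rw [G_append hB h1, C_append h2, Matrix.transpose_mul]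
    have e : (Fc k ε (muw B w)).transpose
        = Er k ε (muw (-B.transpose) w) := by
      unfold Fc
      rw [Matrix.transpose_transpose, muw_neg, muw_transpose]
    rw [e, Matrix.mul_assoc, ← Matrix.mul_assoc (Er k ε _) (Er k ε _), Er_mul_Er, Matrix.one_mul]
    exact ih (by omega)

theorem PL.dual2' (hC : PL n d) {B : Matrix (Fin n) (Fin n) ℤ} (hB : TSSS B)
    {w : List (Fin n)} (hw : w.length ≤ d + 1) :
    (cst B w).C * (cst (-B.transpose) w).G.transpose = 1 := by
  have := hC.dual2 (TSSS_nt hB) hw
  rwa [nt_nt] at this

/-- consequence of the third duality for the initial seed mutation of `G` -/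
theorem PL.G_cons (hC : PL n d) {B : Matrix (Fin n) (Fin n) ℤ} (hB : TSSS B)
    {v : List (Fin n)} {j : Fin n} (hv : v.length ≤ d)
    (h1 : T3 B (j :: v)) (h2 : T3 (mu j B) v) :
    ∃ ε0 : ℤ, VS ε0 (cst (mu j B) v).G.transpose j ∧
      (cst B (j :: v)).G = (Er j ε0 (mu j B).transpose).transpose * (cst (mu j B) v).G := by
  set B' := mu j B with hB'
  set B'' := muw B' v with hB''
  have hBB'' : TSSS B'' := TSSS_muw (hB.mu j) v
  obtain ⟨ε0, h3, _⟩ := hC.sign B''.transpose hBB''.transpose v.reverse (by simpa using hv) j
  refine ⟨ε0, ?_, ?_⟩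
  · rw [h2]; exact h3
  · have e1 : muw B (j :: v) = B'' := rfl
    unfold T3 at h1 h2
    rw [e1, List.reverse_cons, C_append h3] at h1
    have e2 : muw B''.transpose v.reverse = B'.transpose := by
      rw [muw_transpose, hB'', muw_reverse]
    have h2' : (cst B' v).G.transpose = (cst B''.transpose v.reverse).C := h2
    rw [e2, ← h2'] at h1
    have h4 := congrArg Matrix.transpose h1
    rwa [Matrix.transpose_transpose, Matrix.transpose_mul, Matrix.transpose_transpose] at h4

theorem PL.C_cons (hC : PL n d) {B : Matrix (Fin n) (Fin n) ℤ} (hB : TSSS B)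
    {v : List (Fin n)} {j : Fin n} (hv : v.length ≤ d)
    (h1 : T3 (-B.transpose) (j :: v)) (h2 : T3 (-(mu j B).transpose) v) :
    ∃ ε0 : ℤ, (cst B (j :: v)).C = Er j ε0 (-(mu j B)) * (cst (mu j B) v).C := by
  have e1 : mu j (-B.transpose) = -(mu j B).transpose := by rw [mu_neg, mu_transpose]
  have h2' : T3 (mu j (-B.transpose)) v := by rw [e1]; exact h2
  obtain ⟨ε0, _, h3⟩ := hC.G_cons (TSSS_nt hB) hv h1 h2'
  refine ⟨ε0, ?_⟩
  rw [e1] at h3
  have e2 : (-(mu j B).transpose).transpose = -(mu j B) := by
    rw [Matrix.transpose_neg, Matrix.transpose_transpose]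
  rw [e2] at h3
  have d1 := hC.dual2' hB (w := j :: v) (by simpa using hv)
  have d2 := hC.dual2' (hB.mu j) (w := v) (by omega)
  have e3 : (cst (-B.transpose) (j :: v)).G.transpose
      = (cst (-(mu j B).transpose) v).G.transpose * Er j ε0 (-(mu j B)) := by
    rw [h3, Matrix.transpose_mul, Matrix.transpose_transpose]
  rw [e3] at d1
  -- C(B;jv) * (G^T * E) = 1, C(B';v) * G^T = 1
  set X := (cst B (j :: v)).C
  set Y := (cst (mu j B) v).C
  set Z := (cst (-(mu j B).transpose) v).G.transpose
  set E := Er j ε0 (-(mu j B))
  have d2' : Z * Y = 1 := mul_eq_one_comm.mp d2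
  have hEE : E * E = 1 := Er_mul_Er _ _ _
  calc X = X * (Z * (E * E) * Y) := by rw [hEE, Matrix.mul_one, d2', Matrix.mul_one]
    _ = (X * (Z * E)) * (E * Y) := by simp only [Matrix.mul_assoc]
    _ = E * Y := by rw [d1, Matrix.one_mul]

/-- inductive step of the third duality -/
theorem PL.T3_step (hC : PL n d) {B : Matrix (Fin n) (Fin n) ℤ} (hB : TSSS B)
    {v : List (Fin n)} {j k : Fin n} (hv : v.length + 1 ≤ d)
    (h1 : T3 B (j :: v)) (h2 : T3 (mu j B) v) (h3 : T3 (mu j B) (v ++ [k]))
    (h4 : T3 (-B.transpose) (j :: v)) (h5 : T3 (-(mu j B).transpose) v) :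
    T3 B (j :: v ++ [k]) := by
  set B' := mu j B with hB'
  set B'' := muw B' v with hB''
  have hBB' : TSSS B' := hB.mu j
  have hBB'' : TSSS B'' := TSSS_muw hBB' v
  have hBB3 : TSSS (mu k B'') := hBB''.mu k
  have hjv : (j :: v).length ≤ d := by simpa using hv
  have hvd : v.length ≤ d := by omega
  obtain ⟨ε0, hε0, hG1⟩ := hC.G_cons hB hvd h1 h2
  obtain ⟨ε0', hC1⟩ := hC.C_cons hB hvd h4 h5
  rw [← hB'] at hC1 hG1 hε0
  obtain ⟨ε, hε, _⟩ := hC.sign B hB (j :: v) hjv k
  obtain ⟨ε2, hε2, hε2'⟩ := hC.sign B' hBB' v hvd k
  have hG2 := G_append hB hε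
  have hG3 := G_append hBB' hε2
  have e1 : muw B (j :: v) = B'' := rfl
  rw [e1] at hG2
  rw [← hB''] at hG3
  -- the right hand side
  have hkv : (v ++ [k]).reverse.length ≤ d := by simpa using hv
  obtain ⟨ε1, hε1, _⟩ := hC.sign (mu k B'').transpose hBB3.transpose (v ++ [k]).reverse hkv j
  have e2 : muw B (j :: v ++ [k]) = mu k B'' := by
    rw [muw_concat, e1]
  have e3 : (j :: v ++ [k]).reverse = (v ++ [k]).reverse ++ [j] := by simp
  have e4 : muw (mu k B'').transpose (v ++ [k]).reverse = B'.transpose := by
    rw [muw_transpose]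
    congr 1
    have : mu k B'' = muw B' (v ++ [k]) := by rw [muw_concat]
    rw [this, muw_reverse]
  unfold T3 at h3
  have e5 : muw B' (v ++ [k]) = mu k B'' := by rw [muw_concat]
  rw [e5] at h3
  rw [← h3] at hε1
  unfold T3
  rw [e2, e3, C_append (by rw [← h3]; exact hε1), e4, ← h3, hG2, hG1, hG3]
  -- transposed goal
  have goal : (Er j ε0 B'.transpose).transpose * (cst B' v).G * Fc k ε B''
      = (Er j ε1 B'.transpose).transpose * ((cst B' v).G * Fc k ε2 B'') := by
    set Gv := (cst B' v).G with hGv
    rw [hG3] at hε1
    have hkk : B'' k k = 0 := hBB'.diag v k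
    have d2 := hC.dual2 hBB' (w := v) (by omega)
    rw [← hGv] at d2
    have d2c : Gv.transpose * (cst (-B'.transpose) v).C = 1 := mul_eq_one_comm.mp d2
    have dC := hC.dual2' hBB' (w := v) (by omega)
    have dCc : (cst (-B'.transpose) v).G.transpose * (cst B' v).C = 1 := mul_eq_one_comm.mp dC
    by_cases hcase : ∃ l, l ≠ k ∧ Gv j l ≠ 0
    · -- generic case
      obtain ⟨l, hlk, hl⟩ := hcase
      have s1 : ε1 = ε0 := by
        have a1 : (Gv * Fc k ε2 B'').transpose l j = Gv j l := by
          rw [Matrix.transpose_apply, mul_Fc_apply _ _ _ _ hkk, if_neg hlk]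
        obtain ⟨p1, p2⟩ := hε1
        obtain ⟨q1, q2⟩ := hε0
        have r1 := p2 l
        have r2 := q2 l
        rw [a1] at r1
        rw [Matrix.transpose_apply] at r2
        rcases p1 with rfl | rfl <;> rcases q1 with rfl | rfl
        · rfl
        · exfalso; apply hl; linarith
        · exfalso; apply hl; linarith
        · rfl
      have s2 : ∃ i, i ≠ j ∧ (cst B' v).C i k ≠ 0 := by
        by_contra hcon
        push Not at hcon
        have hcon' : ∀ i, i ≠ j → (cst (-B'.transpose) v).C i k = 0 :=
          (hC.supp B' hBB' v hvd j k).mp hcon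
        -- Gᵀ Ĉ = 1 at entry (l,k)
        have hlk' := congrFun (congrFun d2c l) k
        rw [Matrix.mul_apply, Matrix.one_apply_ne hlk] at hlk'
        have hsum : ∑ a, Gv.transpose l a * (cst (-B'.transpose) v).C a k
            = Gv.transpose l j * (cst (-B'.transpose) v).C j k := by
          apply Finset.sum_eq_single j
          · intro b _ hb; rw [hcon' b hb, mul_zero]
          · intro h; exact absurd (Finset.mem_univ j) h
        rw [hsum, Matrix.transpose_apply] at hlk'
        rcases mul_eq_zero.mp hlk' with h | h
        · exact hl h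
        · -- column k of Ĉ is zero, impossible
          have hkk' := congrFun (congrFun d2c k) k
          rw [Matrix.mul_apply, Matrix.one_apply_eq] at hkk'
          have : ∑ a, Gv.transpose k a * (cst (-B'.transpose) v).C a k = 0 := by
            apply Finset.sum_eq_zero
            intro a _
            by_cases ha : a = j
            · rw [ha, h, mul_zero]
            · rw [hcon' a ha, mul_zero]
          rw [this] at hkk'
          exact zero_ne_one hkk'
      obtain ⟨i, hij, hi⟩ := s2
      have s3 : (cst B (j :: v)).C i k = (cst B' v).C i k := by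
        rw [hC1, Er_mul_apply _ _ _ _ _ _ hij]
      have s4 : ε = ε2 := by
        obtain ⟨p1, p2⟩ := hε
        obtain ⟨q1, q2⟩ := hε2
        have r1 := p2 i
        have r2 := q2 i
        rw [s3] at r1
        rcases p1 with rfl | rfl <;> rcases q1 with rfl | rfl
        · rfl
        · exfalso; apply hi; linarith
        · exfalso; apply hi; linarith
        · rfl
      rw [s1, s4, Matrix.mul_assoc]
    · -- exceptional case
      push Not at hcase
      -- c = Gv j k
      have hjj := congrFun (congrFun d2 j) j
      rw [Matrix.mul_apply, Matrix.one_apply_eq] at hjj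
      have hsum : ∑ a, (cst (-B'.transpose) v).C j a * Gv.transpose a j
          = (cst (-B'.transpose) v).C j k * Gv j k := by
        rw [Finset.sum_eq_single k]
        · rfl
        · intro b _ hb; rw [Matrix.transpose_apply, hcase b hb, mul_zero]
        · intro h; exact absurd (Finset.mem_univ k) h
      rw [hsum] at hjj
      have hc1 : (cst (-B'.transpose) v).C j k = 1 ∨ (cst (-B'.transpose) v).C j k = -1 :=
        unit_cases hjj
      have hcG : Gv j k = (cst (-B'.transpose) v).C j k := by
        rcases hc1 with h | h
        · rw [h] at hjj ⊢; linarith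
        · rw [h] at hjj ⊢; linarith
      have hcol : ∀ i, i ≠ j → (cst (-B'.transpose) v).C i k = 0 := by
        intro i hi
        have hij := congrFun (congrFun d2 i) j
        rw [Matrix.mul_apply, Matrix.one_apply_ne hi] at hij
        have hsum2 : ∑ a, (cst (-B'.transpose) v).C i a * Gv.transpose a j
            = (cst (-B'.transpose) v).C i k * Gv j k := by
          rw [Finset.sum_eq_single k]
          · rfl
          · intro b _ hb; rw [Matrix.transpose_apply, hcase b hb, mul_zero]
          · intro h; exact absurd (Finset.mem_univ k) h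
        rw [hsum2, hcG] at hij
        rcases mul_eq_zero.mp hij with h | h
        · exact h
        · rcases hc1 with h' | h' <;> rw [h'] at h <;> norm_num at h
      have hcolC : ∀ i, i ≠ j → (cst B' v).C i k = 0 :=
        (hC.supp B' hBB' v hvd j k).mpr hcol
      -- c = ε2
      have t1 : ε2 = (cst (-B'.transpose) v).C j k := hε2'.eq_of_one rfl hc1
      -- d = C j k = ε2
      have hkk2 := congrFun (congrFun dCc k) k
      rw [Matrix.mul_apply, Matrix.one_apply_eq] at hkk2
      have hsum3 : ∑ a, (cst (-B'.transpose) v).G.transpose k a * (cst B' v).C a k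
          = (cst (-B'.transpose) v).G.transpose k j * (cst B' v).C j k := by
        apply Finset.sum_eq_single j
        · intro b _ hb; rw [hcolC b hb, mul_zero]
        · intro h; exact absurd (Finset.mem_univ j) h
      rw [hsum3] at hkk2
      have hd1 : (cst B' v).C j k = 1 ∨ (cst B' v).C j k = -1 := by
        rw [mul_comm] at hkk2
        exact unit_cases hkk2
      have t2 : ε2 = (cst B' v).C j k := hε2.eq_of_one rfl hd1
      have hε2u : ε2 = 1 ∨ ε2 = -1 := hε2.1
      have t3 : Gv j k = ε2 := by rw [hcG, ← t1]
      -- ε0 = ε2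
      have t4 : ε0 = ε2 := hε0.eq_of_one (j := k) (by rw [Matrix.transpose_apply]; exact t3) hε2u
      -- ε1 = - ε2
      have t5 : ε1 = -ε2 := by
        refine hε1.eq_of_one (j := k) ?_ ?_
        · rw [Matrix.transpose_apply, mul_Fc_apply _ _ _ _ hkk, if_pos rfl, t3]
          have : ∑ a, max (-ε2 * B'' a k) 0 * Gv j a = 0 := by
            apply Finset.sum_eq_zero
            intro a _
            by_cases ha : a = k
            · rw [ha, hkk]; simp
            · rw [hcase a ha, mul_zero]
          rw [this, add_zero]
        · rcases hε2u with h | h <;> rw [h] <;> simp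
      -- ε = - ε2
      have t6 : ε = -ε2 := by
        refine hε.eq_of_one (j := j) ?_ ?_
        · rw [hC1, Matrix.mul_apply]
          have : ∑ a, Er j ε0' (-B') j a * (cst B' v).C a k
              = Er j ε0' (-B') j j * (cst B' v).C j k := by
            apply Finset.sum_eq_single j
            · intro b _ hb; rw [hcolC b hb, mul_zero]
            · intro h; exact absurd (Finset.mem_univ j) h
          rw [this, ← t2]
          simp [Er]
        · rcases hε2u with h | h <;> rw [h] <;> simp
      rw [t4, t5, t6, ← Matrix.mul_assoc]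
      -- first duality at column k
      have hdual := duality1 hBB'.diag v
      have hGB : ∀ x, ∑ a, Gv x a * B'' a k = B' x j * ε2 := by
        intro x
        have h := congrFun (congrFun hdual x) k
        rw [Matrix.mul_apply, Matrix.mul_apply, cst_B] at h
        rw [← hGv, ← hB''] at h
        rw [h, t2]
        apply Finset.sum_eq_single j
        · intro b _ hb; rw [hcolC b hb, mul_zero]
        · intro h; exact absurd (Finset.mem_univ j) h
      ext x y
      rw [mul_Fc_apply _ _ _ _ hkk, mul_Fc_apply _ _ _ _ hkk]
      by_cases hy : y = k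
      · subst hy
        simp only [if_true, ErT_mul_apply]
        by_cases hx : x = j
        · subst hx
          simp only [if_true]
          congr 1
          apply Finset.sum_congr rfl
          intro a _
          by_cases ha : a = y
          · rw [ha, hkk]; simp
          · rw [hcase a ha]; simp
        · simp only [hx, if_false]
          have u1 : ∑ a, max (- -ε2 * B'' a y) 0 * (Gv x a + max (ε2 * B' x j) 0 * Gv j a)
              = ∑ a, max (ε2 * B'' a y) 0 * Gv x a := by
            apply Finset.sum_congr rfl
            intro a _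
            by_cases ha : a = y
            · rw [ha, hkk]; simp
            · rw [hcase a ha, neg_neg]; simp
          have u2 : ∑ a, max (-ε2 * B'' a y) 0 * (Gv x a + max (-ε2 * B' x j) 0 * Gv j a)
              = ∑ a, max (-ε2 * B'' a y) 0 * Gv x a := by
            apply Finset.sum_congr rfl
            intro a _
            by_cases ha : a = y
            · rw [ha, hkk]; simp
            · rw [hcase a ha]; simp
          rw [u1, u2, t3]
          have u3 : ∑ a, max (ε2 * B'' a y) 0 * Gv x a - ∑ a, max (-ε2 * B'' a y) 0 * Gv x a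
              = ε2 * (B' x j * ε2) := by
            rw [← hGB x, ← Finset.sum_sub_distrib, Finset.mul_sum]
            apply Finset.sum_congr rfl
            intro a _
            rw [← sub_mul, neg_mul, max_sub_max]; ring
          have u4 := max_sub_max (ε2 * B' x j)
          rw [← neg_mul] at u4
          have u5 : ε2 * ε2 = 1 := by rcases hε2u with h | h <;> rw [h] <;> norm_num
          have u6 : max (ε2 * B' x j) 0 = ε2 * B' x j + max (-ε2 * B' x j) 0 := by linarith
          rw [u6]
          have u7 : ε2 * (B' x j * ε2) = B' x j := by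
            calc ε2 * (B' x j * ε2) = B' x j * (ε2 * ε2) := by ring
              _ = B' x j := by rw [u5, mul_one]
          rw [u7] at u3
          have u8 : (ε2 * B' x j + max (-ε2 * B' x j) 0) * ε2
              = B' x j + max (-ε2 * B' x j) 0 * ε2 := by
            calc (ε2 * B' x j + max (-ε2 * B' x j) 0) * ε2
                = B' x j * (ε2 * ε2) + max (-ε2 * B' x j) 0 * ε2 := by ring
              _ = _ := by rw [u5, mul_one]
          rw [u8]
          linarith
      · simp only [hy, if_false, ErT_mul_apply]
        by_cases hx : x = j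
        · simp [hx]
        · simp only [hx, if_false]
          rw [hcase y hy]; simp
  have goal' := congrArg Matrix.transpose goal
  rw [Matrix.transpose_mul, Matrix.transpose_mul, Matrix.transpose_mul, Matrix.transpose_mul,
    Matrix.transpose_transpose, Matrix.transpose_transpose] at goal'
  rw [Matrix.transpose_mul, Matrix.transpose_mul, Matrix.transpose_mul,
    Matrix.transpose_transpose]
  exact goal'

theorem PL.T3_all (hC : PL n d) (m : ℕ) : ∀ w : List (Fin n), w.length ≤ m → w.length ≤ d + 1 →
    ∀ B, TSSS B → T3 B w := by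
  induction m with
  | zero =>
    intro w hw _ B _
    have : w = [] := List.length_eq_zero_iff.mp (Nat.le_zero.mp hw)
    subst this
    simp [T3, cst, cinit]
  | succ m ih =>
    intro w hw hL B hB
    rcases w with _ | ⟨j, w'⟩
    · simp [T3, cst, cinit]
    · rcases List.eq_nil_or_concat w' with h | ⟨v, k, h⟩
      · subst h
        obtain ⟨ε, h1, _⟩ := hC.sign B hB [] (by simp) j
        obtain ⟨ε', h2, _⟩ := hC.sign (mu j B).transpose (hB.mu j).transpose [] (by simp) j
        have e1 : ε = 1 := h1.eq_of_one (j := j) (by simp [cst, cinit]) (Or.inl rfl)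
        have e2 : ε' = 1 := h2.eq_of_one (j := j) (by simp [cst, cinit]) (Or.inl rfl)
        have g1 := G_append hB h1
        have g2 := C_append h2
        rw [List.nil_append] at g1 g2
        unfold T3
        have e3 : muw B [j] = mu j B := rfl
        rw [e3, List.reverse_singleton, g1, g2]
        subst e1; subst e2
        simp only [cst, cinit, List.foldl_nil, Matrix.one_mul, muw, Fc,
          Matrix.transpose_transpose]
        ext i l
        simp only [Er, Matrix.of_apply, mu, Matrix.transpose_apply, Matrix.neg_apply, or_true,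
          if_true]
      · have h' : w' = v ++ [k] := by simpa using h
        subst h'
        have hlen : v.length + 2 ≤ m + 1 := by simpa using hw
        have hlen2 : v.length + 2 ≤ d + 1 := by simpa using hL
        have hB' := hB.mu j
        exact hC.T3_step hB (by omega)
          (ih (j :: v) (by simp; omega) (by simp; omega) B hB)
          (ih v (by omega) (by omega) _ hB')
          (ih (v ++ [k]) (by simp; omega) (by simp; omega) _ hB')
          (ih (j :: v) (by simp; omega) (by simp; omega) _ (TSSS_nt hB))
          (ih v (by omega) (by omega) _ (TSSS_nt hB'))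

/-- Lemma 5: the third duality for all words of length at most `d + 1`. -/
theorem PL.T3' (hC : PL n d) {B : Matrix (Fin n) (Fin n) ℤ} (hB : TSSS B) {w : List (Fin n)}
    (hw : w.length ≤ d + 1) : T3 B w := hC.T3_all w.length w le_rfl hw B hB

/-- the change of the initial seed -/
theorem PL.G_change (hC : PL n d) {B : Matrix (Fin n) (Fin n) ℤ} (hB : TSSS B)
    {w : List (Fin n)} (hw : w.length ≤ d) (k a : Fin n) :
    (cst (mu k B) (k :: w)).G k a = -(cst B w).G k a ∧
    ∀ i, i ≠ k → (cst (mu k B) (k :: w)).G i a
      = (cst B w).G i a + max (B i k) 0 * (cst B w).G k a - B i k * min ((cst B w).G k a) 0 := by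
  have hB' := hB.mu k
  have e1 : mu k (mu k B) = B := mu_mu k B
  have h1 : T3 (mu k B) (k :: w) := hC.T3' hB' (by simpa using hw)
  have h2 : T3 B w := hC.T3' hB (by omega)
  obtain ⟨ε, hε, hG⟩ := hC.G_cons hB' hw h1 (by rw [e1]; exact h2)
  rw [e1] at hε hG
  constructor
  · rw [hG, ErT_mul_apply, if_pos rfl]
  · intro i hi
    rw [hG, ErT_mul_apply, if_neg hi]
    obtain ⟨h3, h4⟩ := hε
    have h5 := h4 a
    rw [Matrix.transpose_apply] at h5
    rcases h3 with rfl | rfl
    · have h6 : 0 ≤ (cst B w).G k a := by linarith
      rw [min_eq_right h6, one_mul]; ring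
    · have h6 : (cst B w).G k a ≤ 0 := by linarith
      rw [min_eq_left h6, neg_one_mul]
      have := max_sub_max (B i k)
      have h7 : max (-B i k) 0 = max (B i k) 0 - B i k := by linarith
      rw [h7]; ring

end PLsec

end Pool.Agent.Lib.MP_51fc07_al.GV
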